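import Pool.Agent.H88.AF.Av

/-!
helper88 (project MP_28250c_FF): the roots of unity `om`.
-/

set_option autoImplicit false

namespace ACpFrege

variable {n : ℕ}

theorem om_eq_pow [NeZero n] (k : ZMod n) : om n k = Complex.exp (2 * Real.pi * Complex.I / n) ^ k.val := by
  unfold om
  rw [← Complex.exp_nat_mul]
  congr 1
  ring

theorem om_natCast [NeZero n] (k : ℕ) : om n (k : ZMod n) = Complex.exp (2 * Real.pi * Complex.I / n) ^ k := by
  rw [om_eq_pow, ZMod.val_natCast]
  have h := (Complex.isPrimitiveRoot_exp n (NeZero.ne n)).pow_eq_one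
  conv_rhs => rw [← Nat.mod_add_div k n]
  rw [pow_add, pow_mul, h, one_pow, mul_one]

theorem om_zero [NeZero n] : om n (0 : ZMod n) = 1 := by
  rw [om_eq_pow, ZMod.val_zero, pow_zero]

theorem om_add [NeZero n] (a b : ZMod n) : om n (a + b) = om n a * om n b := by
  have h : a + b = ((a.val + b.val : ℕ) : ZMod n) := by
    push_cast
    rw [ZMod.natCast_zmod_val, ZMod.natCast_zmod_val]
  rw [h, om_natCast, om_eq_pow, om_eq_pow, pow_add]

theorem om_norm [NeZero n] (a : ZMod n) : ‖om n a‖ = 1 := by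
  rw [om_eq_pow, norm_pow]
  have h : (2 * Real.pi * Complex.I / n : ℂ) = ((2 * Real.pi / n : ℝ) : ℂ) * Complex.I := by
    push_cast
    ring
  rw [h, Complex.norm_exp_ofReal_mul_I, one_pow]

theorem om_ne_zero [NeZero n] (a : ZMod n) : om n a ≠ 0 := by
  intro h
  have := om_norm a
  rw [h, norm_zero] at this
  exact zero_ne_one this

theorem om_conj_mul [NeZero n] (a : ZMod n) : (starRingEnd ℂ) (om n a) * om n a = 1 := by
  rw [Complex.conj_mul', om_norm]
  norm_num

theorem om_mul_conj [NeZero n] (a : ZMod n) : om n a * (starRingEnd ℂ) (om n a) = 1 := by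
  rw [mul_comm, om_conj_mul]

theorem om_neg [NeZero n] (a : ZMod n) : om n (-a) = (starRingEnd ℂ) (om n a) := by
  have h : om n (-a) * om n a = 1 := by rw [← om_add, neg_add_cancel, om_zero]
  have h2 := om_conj_mul a
  exact mul_right_cancel₀ (om_ne_zero a) (h.trans h2.symm)

theorem om_nsmul [NeZero n] (k : ℕ) (a : ZMod n) : om n (k • a) = om n a ^ k := by
  induction k with
  | zero => rw [zero_smul, om_zero, pow_zero]
  | succ k ih => rw [succ_nsmul, om_add, ih, pow_succ]

theorem om_one_pow_ne [NeZero n] {k : ℕ} (h0 : 0 < k) (hk : k < n) : om n 1 ^ k ≠ 1 := by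
  have h := om_natCast (n := n) 1
  rw [Nat.cast_one, pow_one] at h
  rw [h]
  exact (Complex.isPrimitiveRoot_exp n (NeZero.ne n)).pow_ne_one_of_pos_of_lt h0.ne' hk

/-- The sum of the `k`-th powers of all roots of unity vanishes for `0 < k < n`. -/
theorem sum_om_pow [NeZero n] {k : ℕ} (h0 : 0 < k) (hk : k < n) : ∑ s : ZMod n, om n s ^ k = 0 := by
  have h1 : ∑ s : ZMod n, om n s ^ k = om n 1 ^ k * ∑ s : ZMod n, om n s ^ k := by
    refine (Equiv.sum_comp (Equiv.addRight (1 : ZMod n)) (fun s => om n s ^ k)).symm.trans ?_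
    rw [Finset.mul_sum]
    refine Finset.sum_congr rfl fun s _ => ?_
    rw [Equiv.coe_addRight, om_add, mul_pow]
    ring
  have h2 : (1 - om n 1 ^ k) * ∑ s : ZMod n, om n s ^ k = 0 := by
    rw [sub_mul, one_mul, ← h1, sub_self]
  rcases mul_eq_zero.1 h2 with h | h
  · exact absurd (sub_eq_zero.1 h).symm (om_one_pow_ne h0 hk)
  · exact h

theorem sum_om [NeZero n] (h : 2 ≤ n) : ∑ s : ZMod n, om n s = 0 := by
  have := sum_om_pow (n := n) (k := 1) one_pos (by omega)
  simpa using this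

theorem sum_om_sq [NeZero n] (h : 3 ≤ n) : ∑ s : ZMod n, om n s ^ 2 = 0 :=
  sum_om_pow (n := n) (k := 2) two_pos (by omega)

/-- Signs: the parity of a shifted residue modulo `2q`. -/
theorem sgn_add {q : ℕ} [NeZero q] (a s : ZMod (2 * q)) : ((-1 : ℂ)) ^ (a + s).val = (-1) ^ a.val * (-1) ^ s.val := by
  rw [ZMod.val_add, ← pow_add]
  have h : (-1 : ℂ) ^ (a.val + s.val) = (-1) ^ ((a.val + s.val) % (2 * q) + 2 * q * ((a.val + s.val) / (2 * q))) := by
    rw [Nat.mod_add_div]
  rw [h, pow_add, mul_assoc, pow_mul (-1 : ℂ) 2, neg_one_sq, one_pow, mul_one]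

theorem sgn_norm {q : ℕ} (a : ZMod (2 * q)) : ‖(-1 : ℂ) ^ a.val‖ = 1 := by
  rw [norm_pow, norm_neg, norm_one, one_pow]

theorem sum_sgn {q : ℕ} [NeZero q] : ∑ s : ZMod (2 * q), (-1 : ℂ) ^ s.val = 0 := by
  have hval : (1 : ZMod (2 * q)).val = 1 := by
    have h2 : 1 < 2 * q := by
      have := NeZero.pos q
      omega
    have : Fact (1 < 2 * q) := ⟨h2⟩
    exact ZMod.val_one (2 * q)
  have h1 : ∑ s : ZMod (2 * q), (-1 : ℂ) ^ s.val = - ∑ s : ZMod (2 * q), (-1 : ℂ) ^ s.val := by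
    refine (Equiv.sum_comp (Equiv.addRight (1 : ZMod (2 * q))) (fun s => (-1 : ℂ) ^ s.val)).symm.trans ?_
    rw [← Finset.sum_neg_distrib]
    refine Finset.sum_congr rfl fun s _ => ?_
    rw [Equiv.coe_addRight, sgn_add, hval]
    ring
  have h2 : (2 : ℂ) * ∑ s : ZMod (2 * q), (-1 : ℂ) ^ s.val = 0 := by
    linear_combination h1
  rcases mul_eq_zero.1 h2 with h | h
  · norm_num at h
  · exact h

end ACpFrege
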