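import Pool.Agent.H88.AF.Spec

/-!
helper88 (project MP_28250c_FF): averages over finite types, probabilities, shifts of one coordinate.
-/

set_option autoImplicit false

namespace ACpFrege

section av

variable {Ω : Type} [Fintype Ω]

theorem av_add (f g : Ω → ℝ) : av (fun x => f x + g x) = av f + av g := by
  simp [av, Finset.sum_add_distrib, add_div]

theorem av_sub (f g : Ω → ℝ) : av (fun x => f x - g x) = av f - av g := by
  simp [av, Finset.sum_sub_distrib, sub_div]

theorem av_mul (c : ℝ) (f : Ω → ℝ) : av (fun x => c * f x) = c * av f := by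
  simp [av, Finset.mul_sum, mul_div_assoc, Finset.sum_div]

theorem av_neg (f : Ω → ℝ) : av (fun x => - f x) = - av f := by
  simp [av, neg_div]

theorem av_sum {α : Type} (s : Finset α) (f : α → Ω → ℝ) : av (fun x => ∑ a ∈ s, f a x) = ∑ a ∈ s, av (f a) := by
  unfold av
  rw [Finset.sum_comm, Finset.sum_div]

theorem av_mono {f g : Ω → ℝ} (h : ∀ x, f x ≤ g x) : av f ≤ av g := by
  unfold av
  gcongr with x _
  exact h x

theorem av_nonneg {f : Ω → ℝ} (h : ∀ x, 0 ≤ f x) : 0 ≤ av f :=
  div_nonneg (Finset.sum_nonneg fun x _ => h x) (by positivity)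

theorem av_const [Nonempty Ω] (c : ℝ) : av (fun _ : Ω => c) = c := by
  unfold av
  rw [Finset.sum_const, Finset.card_univ, nsmul_eq_mul]
  have : (Fintype.card Ω : ℝ) ≠ 0 := by
    have := Fintype.card_pos (α := Ω)
    positivity
  field_simp

theorem av_congr {f g : Ω → ℝ} (h : ∀ x, f x = g x) : av f = av g := by
  have : f = g := funext h
  rw [this]

theorem av_comp (e : Ω ≃ Ω) (f : Ω → ℝ) : av (fun x => f (e x)) = av f := by
  unfold av
  rw [e.sum_comp]

/-- Cauchy-Schwarz for averages. -/
theorem av_cs (f g : Ω → ℝ) : av (fun x => f x * g x) ^ 2 ≤ av (fun x => f x ^ 2) * av (fun x => g x ^ 2) := by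
  unfold av
  rw [div_pow, div_mul_div_comm, ← sq]
  gcongr
  exact Finset.sum_mul_sq_le_sq_mul_sq _ _ _

theorem pr_nonneg (A : Ω → Prop) : 0 ≤ pr A := by
  classical
  exact av_nonneg fun x => by split_ifs <;> norm_num

theorem pr_le_one (A : Ω → Prop) : pr A ≤ 1 := by
  classical
  unfold pr av
  apply div_le_one_of_le₀ _ (by positivity)
  calc (∑ x, if A x then (1 : ℝ) else 0) ≤ ∑ _x : Ω, (1 : ℝ) :=
        Finset.sum_le_sum fun x _ => by split_ifs <;> norm_num
    _ = _ := by simp

theorem pr_mono {A B : Ω → Prop} (h : ∀ x, A x → B x) : pr A ≤ pr B := by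
  classical
  refine av_mono fun x => ?_
  by_cases hA : A x
  · rw [if_pos hA, if_pos (h x hA)]
  · rw [if_neg hA]
    split_ifs <;> norm_num

theorem pr_or (A B : Ω → Prop) : pr (fun x => A x ∨ B x) ≤ pr A + pr B := by
  classical
  unfold pr
  rw [← av_add]
  refine av_mono fun x => ?_
  by_cases hA : A x <;> by_cases hB : B x <;> simp [hA, hB]

theorem pr_not [Nonempty Ω] (A : Ω → Prop) : pr (fun x => ¬ A x) = 1 - pr A := by
  classical
  unfold pr
  rw [← av_const (Ω := Ω) 1, ← av_sub]
  refine av_congr fun x => ?_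
  by_cases hA : A x <;> simp [hA, av_const]

/-- Union bound. -/
theorem pr_exists {α : Type} (s : Finset α) (A : α → Ω → Prop) :
    pr (fun x => ∃ a ∈ s, A a x) ≤ ∑ a ∈ s, pr (A a) := by
  classical
  unfold pr
  rw [← av_sum]
  refine av_mono fun x => ?_
  by_cases h : ∃ a ∈ s, A a x
  · rw [if_pos h]
    obtain ⟨a, ha, hx⟩ := h
    calc (1 : ℝ) = if A a x then 1 else 0 := by rw [if_pos hx]
      _ ≤ ∑ a ∈ s, if A a x then (1 : ℝ) else 0 :=
        Finset.single_le_sum (f := fun a => if A a x then (1 : ℝ) else 0)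
          (fun a _ => by split_ifs <;> norm_num) ha
  · rw [if_neg h]
    exact Finset.sum_nonneg fun a _ => by split_ifs <;> norm_num

/-- Markov's inequality. -/
theorem markov {f : Ω → ℝ} (hf : ∀ x, 0 ≤ f x) {c : ℝ} (hc : 0 < c) : pr (fun x => c ≤ f x) ≤ av f / c := by
  classical
  rw [le_div_iff₀ hc]
  unfold pr
  rw [mul_comm, ← av_mul]
  refine av_mono fun x => ?_
  by_cases h : c ≤ f x
  · rw [if_pos h, mul_one]
    exact h
  · rw [if_neg h, mul_zero]
    exact hf x

/-- If a property has probability larger than another one, it holds somewhere where the other one fails. -/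
theorem exists_of_pr {A : Ω → Prop} (h : 0 < pr A) : ∃ x, A x := by
  classical
  by_contra hn
  have h0 : ∀ x, ¬ A x := fun x hx => hn ⟨x, hx⟩
  have : pr A = 0 := by
    unfold pr av
    simp [h0]
  linarith

end av

section shf

variable {b M q : ℕ}

/-- The coordinate `(i,u,v)` is shifted by `s`. -/
def shf (i : Fin b) (u v : Fin M) (s : ZMod (2 * q)) (o : Om b M q) : Om b M q :=
  fun i' u' v' => if i' = i ∧ u' = u ∧ v' = v then o i' u' v' + s else o i' u' v'

theorem shf_inv (i : Fin b) (u v : Fin M) (s : ZMod (2 * q)) (o : Om b M q) : shf i u v (-s) (shf i u v s o) = o := by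
  funext i' u' v'
  unfold shf
  by_cases h : i' = i ∧ u' = u ∧ v' = v
  · rw [if_pos h, if_pos h, add_neg_cancel_right]
  · rw [if_neg h, if_neg h]

/-- The shift as a bijection. -/
def shfE (i : Fin b) (u v : Fin M) (s : ZMod (2 * q)) : Om b M q ≃ Om b M q where
  toFun := shf i u v s
  invFun := shf i u v (-s)
  left_inv := shf_inv i u v s
  right_inv := fun o => by
    have := shf_inv i u v (-s) o
    rwa [neg_neg] at this

theorem shf_self (i : Fin b) (u v : Fin M) (s : ZMod (2 * q)) (o : Om b M q) : shf i u v s o i u v = o i u v + s := by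
  simp [shf]

theorem shf_ne (i : Fin b) (u v : Fin M) (s : ZMod (2 * q)) (o : Om b M q) (i' : Fin b) (u' v' : Fin M)
    (h : ¬ (i' = i ∧ u' = u ∧ v' = v)) : shf i u v s o i' u' v' = o i' u' v' := by
  unfold shf
  rw [if_neg h]

variable [NeZero q]

/-- Averages are invariant under shifts. -/
theorem av_shf (i : Fin b) (u v : Fin M) (s : ZMod (2 * q)) (f : Om b M q → ℝ) :
    av (fun o => f (shf i u v s o)) = av f :=
  av_comp (shfE i u v s) f

end shf

end ACpFrege
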