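import Pool.Agent.H65.AF.CDefs

/-!
helper88 (project MP_28250c_AF): output of C4.
-/

set_option autoImplicit false

namespace ACpFrege

/-- `M^(1/400)`. -/
noncomputable def rr (M : ℕ) : ℝ := (M : ℝ) ^ ((1 : ℝ) / 400)

/-- `M^(-1/20)`. -/
noncomputable def dd (M : ℕ) : ℝ := (rr M ^ 20)⁻¹

open Classical in
/-- Output of C4: the largest eigenvalue is at most `2 √M (1 + d²/2)` up to a small probability, and the average of the trace of
the resolvent at `2 √M (1 + d²)` on this event is at least `√M (1 - 2 d)`, `d = M^(-1/20)`. -/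
def OutC4 : Prop := ∀ q : ℕ, 3 ≤ q → ∃ M₀ : ℕ, ∀ M ≥ M₀, ∃ b₀ : ℕ, ∀ b ≥ b₀, ∀ [NeZero q],
  pr (fun o : Om b M q => 2 * Real.sqrt M * (1 + dd M ^ 2 / 2) < lam (HH o) 0) ≤ 4 / (M * dd M ^ 4) ∧
  Real.sqrt M * (1 - 2 * dd M) ≤
    av (fun o : Om b M q => if lam (HH o) 0 ≤ 2 * Real.sqrt M * (1 + dd M ^ 2 / 2) then
      ∑ j ∈ Finset.range M, 1 / (2 * Real.sqrt M * (1 + dd M ^ 2) - lam (HH o) j) else 0)

end ACpFrege
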