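import Pool.Agent.H65.AF.PDefs

/-!
helper88 (project MP_28250c_AF): the Hermitian form `ip`, the squared norm `nsq`, and the spectral basics for `lam`, `xi`.
-/

set_option autoImplicit false

namespace ACpFrege

section ips

variable {ι : Type} [Fintype ι]

theorem ip_conj (x y : ι → ℂ) : (starRingEnd ℂ) (ip x y) = ip y x := by
  unfold ip
  rw [map_sum]
  refine Finset.sum_congr rfl fun u _ => ?_
  simp [mul_comm]

theorem ip_self (x : ι → ℂ) : ip x x = (nsq x : ℂ) := by
  unfold ip nsq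
  push_cast
  refine Finset.sum_congr rfl fun u _ => ?_
  rw [← Complex.conj_mul']

theorem ip_add_right (x y z : ι → ℂ) : ip x (y + z) = ip x y + ip x z := by
  simp [ip, mul_add, Finset.sum_add_distrib]

theorem ip_add_left (x y z : ι → ℂ) : ip (x + y) z = ip x z + ip y z := by
  simp [ip, add_mul, Finset.sum_add_distrib]

theorem ip_sub_right (x y z : ι → ℂ) : ip x (y - z) = ip x y - ip x z := by
  simp [ip, mul_sub, Finset.sum_sub_distrib]

theorem ip_sub_left (x y z : ι → ℂ) : ip (x - y) z = ip x z - ip y z := by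
  simp [ip, sub_mul, Finset.sum_sub_distrib]

theorem ip_smul_right (c : ℂ) (x y : ι → ℂ) : ip x (c • y) = c * ip x y := by
  simp only [ip, Pi.smul_apply, smul_eq_mul, Finset.mul_sum]
  refine Finset.sum_congr rfl fun u _ => by ring

theorem ip_smul_left (c : ℂ) (x y : ι → ℂ) : ip (c • x) y = (starRingEnd ℂ) c * ip x y := by
  simp only [ip, Pi.smul_apply, smul_eq_mul, Finset.mul_sum, map_mul]
  refine Finset.sum_congr rfl fun u _ => by ring

theorem ip_zero_right (x : ι → ℂ) : ip x 0 = 0 := by simp [ip]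

theorem ip_zero_left (x : ι → ℂ) : ip 0 x = 0 := by simp [ip]

theorem ip_sum_right {α : Type} (s : Finset α) (x : ι → ℂ) (f : α → ι → ℂ) :
    ip x (∑ a ∈ s, f a) = ∑ a ∈ s, ip x (f a) := by
  simp only [ip, Finset.sum_apply, Finset.mul_sum]
  rw [Finset.sum_comm]

theorem ip_sum_left {α : Type} (s : Finset α) (x : ι → ℂ) (f : α → ι → ℂ) :
    ip (∑ a ∈ s, f a) x = ∑ a ∈ s, ip (f a) x := by
  simp only [ip, Finset.sum_apply, map_sum, Finset.sum_mul]
  rw [Finset.sum_comm]

theorem ip_re_comm (x y : ι → ℂ) : (ip x y).re = (ip y x).re := by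
  rw [← ip_conj y x, Complex.conj_re]

theorem nsq_nonneg (x : ι → ℂ) : 0 ≤ nsq x := Finset.sum_nonneg fun _ _ => by positivity

theorem nsq_zero : nsq (0 : ι → ℂ) = 0 := by simp [nsq]

theorem nsq_eq_zero {x : ι → ℂ} : nsq x = 0 ↔ x = 0 := by
  constructor
  · intro h
    funext u
    have h1 := (Finset.sum_eq_zero_iff_of_nonneg (fun (v : ι) _ => by positivity)).1 h u (Finset.mem_univ u)
    simpa using h1
  · rintro rfl
    exact nsq_zero

theorem nsq_eq_re (x : ι → ℂ) : nsq x = (ip x x).re := by rw [ip_self, Complex.ofReal_re]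

theorem nsq_smul (c : ℂ) (x : ι → ℂ) : nsq (c • x) = ‖c‖ ^ 2 * nsq x := by
  simp only [nsq, Pi.smul_apply, smul_eq_mul, norm_mul, mul_pow, Finset.mul_sum]

theorem nsq_neg (x : ι → ℂ) : nsq (-x) = nsq x := by simp [nsq]

theorem nsq_sub_comm (x y : ι → ℂ) : nsq (x - y) = nsq (y - x) := by rw [← nsq_neg, neg_sub]

theorem nsq_add (x y : ι → ℂ) : nsq (x + y) = nsq x + nsq y + 2 * (ip x y).re := by
  rw [nsq_eq_re, ip_add_left, ip_add_right, ip_add_right, Complex.add_re, Complex.add_re, Complex.add_re, ip_re_comm y x,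
    ← nsq_eq_re, ← nsq_eq_re]
  ring

theorem nsq_sub (x y : ι → ℂ) : nsq (x - y) = nsq x + nsq y - 2 * (ip x y).re := by
  rw [nsq_eq_re, ip_sub_left, ip_sub_right, ip_sub_right, Complex.sub_re, Complex.sub_re, Complex.sub_re, ip_re_comm y x,
    ← nsq_eq_re, ← nsq_eq_re]
  ring

/-- Cauchy-Schwarz. -/
theorem ip_cs (x y : ι → ℂ) : ‖ip x y‖ ^ 2 ≤ nsq x * nsq y := by
  have h1 : ‖ip x y‖ ≤ ∑ u, ‖x u‖ * ‖y u‖ := by
    unfold ip
    refine (norm_sum_le _ _).trans (le_of_eq (Finset.sum_congr rfl fun u _ => ?_))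
    rw [norm_mul, RCLike.norm_conj]
  calc ‖ip x y‖ ^ 2 ≤ (∑ u, ‖x u‖ * ‖y u‖) ^ 2 := pow_le_pow_left₀ (norm_nonneg _) h1 2
    _ ≤ (∑ u, ‖x u‖ ^ 2) * ∑ u, ‖y u‖ ^ 2 := Finset.sum_mul_sq_le_sq_mul_sq _ _ _

theorem norm_apply_sq_le (x : ι → ℂ) (u : ι) : ‖x u‖ ^ 2 ≤ nsq x :=
  Finset.single_le_sum (f := fun u => ‖x u‖ ^ 2) (fun _ _ => by positivity) (Finset.mem_univ u)

/-- A Hermitian matrix is self-adjoint for `ip`. -/
theorem ip_herm {H : Matrix ι ι ℂ} (hH : H.IsHermitian) (x y : ι → ℂ) : ip x (H.mulVec y) = ip (H.mulVec x) y := by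
  simp only [ip, Matrix.mulVec, dotProduct, Finset.mul_sum, map_sum, Finset.sum_mul]
  rw [Finset.sum_comm]
  refine Finset.sum_congr rfl fun u _ => Finset.sum_congr rfl fun v _ => ?_
  rw [map_mul]
  have := hH.apply u v
  rw [← this]
  simp only [RCLike.star_def, Complex.conj_conj]
  ring

theorem ip_herm_im {H : Matrix ι ι ℂ} (hH : H.IsHermitian) (x : ι → ℂ) : (ip x (H.mulVec x)).im = 0 := by
  have h := ip_conj x (H.mulVec x)
  rw [← ip_herm hH] at h
  exact Complex.conj_eq_iff_im.1 h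

theorem ip_herm_re {H : Matrix ι ι ℂ} (hH : H.IsHermitian) (x : ι → ℂ) :
    ip x (H.mulVec x) = ((ip x (H.mulVec x)).re : ℂ) := by
  apply Complex.ext
  · simp
  · simp [ip_herm_im hH]

end ips

section spec

variable {ι : Type} [Fintype ι] [DecidableEq ι] {H : Matrix ι ι ℂ}

/-- The eigenvalues are decreasing. -/
theorem lam_anti (hH : H.IsHermitian) {i j : ℕ} (hij : i ≤ j) (hj : j < Fintype.card ι) : lam H j ≤ lam H i := by
  unfold lam
  rw [dif_pos ⟨hH, hj⟩, dif_pos ⟨hH, lt_of_le_of_lt hij hj⟩]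
  exact hH.eigenvalues₀_antitone hij

/-- The eigenvectors are orthonormal. -/
theorem xi_on (hH : H.IsHermitian) {i j : ℕ} (hi : i < Fintype.card ι) (hj : j < Fintype.card ι) :
    ip (xi H i) (xi H j) = if i = j then 1 else 0 := by
  unfold xi
  rw [dif_pos ⟨hH, hi⟩, dif_pos ⟨hH, hj⟩]
  have h1 : ∀ x y : EuclideanSpace ℂ ι, ip x.ofLp y.ofLp = inner ℂ x y := by
    intro x y
    rw [PiLp.inner_apply]
    unfold ip
    refine Finset.sum_congr rfl fun u _ => ?_
    simp [mul_comm]
  rw [h1, orthonormal_iff_ite.1 hH.eigenvectorBasis.orthonormal]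
  simp

theorem xi_nsq (hH : H.IsHermitian) {j : ℕ} (hj : j < Fintype.card ι) : nsq (xi H j) = 1 := by
  rw [nsq_eq_re, xi_on hH hj hj]
  simp

/-- The eigenvectors are eigenvectors. -/
theorem xi_eig (hH : H.IsHermitian) {j : ℕ} (hj : j < Fintype.card ι) :
    H.mulVec (xi H j) = (lam H j : ℂ) • xi H j := by
  unfold xi lam
  rw [dif_pos ⟨hH, hj⟩, dif_pos ⟨hH, hj⟩, hH.mulVec_eigenvectorBasis]
  unfold Matrix.IsHermitian.eigenvalues
  rw [Equiv.symm_apply_apply]
  rfl

/-- Expansion in the eigenvectors. -/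
theorem xi_expand (hH : H.IsHermitian) (y : ι → ℂ) :
    y = ∑ j ∈ Finset.range (Fintype.card ι), ip (xi H j) y • xi H j := by
  set B := hH.eigenvectorBasis with hB
  have h1 : ∀ x y : EuclideanSpace ℂ ι, inner ℂ x y = ip x.ofLp y.ofLp := by
    intro x y
    rw [PiLp.inner_apply]
    unfold ip
    refine Finset.sum_congr rfl fun u _ => ?_
    simp [mul_comm]
  have h2 := B.sum_repr' (WithLp.toLp 2 y)
  have h3 := congrArg WithLp.ofLp h2
  rw [WithLp.ofLp_sum] at h3
  simp only [WithLp.ofLp_smul, h1] at h3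
  rw [Finset.sum_range]
  rw [← (Fintype.equivOfCardEq (Fintype.card_fin (Fintype.card ι)) : Fin (Fintype.card ι) ≃ ι).sum_comp] at h3
  refine h3.symm.trans (Finset.sum_congr rfl fun j _ => ?_)
  unfold xi
  rw [dif_pos ⟨hH, j.2⟩]

/-- The form in the eigenvectors. -/
theorem ip_expand (hH : H.IsHermitian) (x y : ι → ℂ) :
    ip x y = ∑ j ∈ Finset.range (Fintype.card ι), (starRingEnd ℂ) (ip (xi H j) x) * ip (xi H j) y := by
  conv_lhs => rw [xi_expand hH y]
  rw [ip_sum_right]
  refine Finset.sum_congr rfl fun j _ => ?_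
  rw [ip_smul_right, ip_conj]
  ring

theorem nsq_expand (hH : H.IsHermitian) (y : ι → ℂ) :
    nsq y = ∑ j ∈ Finset.range (Fintype.card ι), ‖ip (xi H j) y‖ ^ 2 := by
  rw [nsq_eq_re, ip_expand hH]
  rw [Complex.re_sum]
  refine Finset.sum_congr rfl fun j _ => ?_
  rw [Complex.conj_mul', ← Complex.ofReal_pow, Complex.ofReal_re]

/-- The coefficients of `H y`. -/
theorem ip_xi_mulVec (hH : H.IsHermitian) {j : ℕ} (hj : j < Fintype.card ι) (y : ι → ℂ) :
    ip (xi H j) (H.mulVec y) = (lam H j : ℂ) * ip (xi H j) y := by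
  rw [ip_herm hH, xi_eig hH hj, ip_smul_left, Complex.conj_ofReal]

theorem form_expand (hH : H.IsHermitian) (x y : ι → ℂ) :
    ip x (H.mulVec y) =
      ∑ j ∈ Finset.range (Fintype.card ι), (lam H j : ℂ) * ((starRingEnd ℂ) (ip (xi H j) x) * ip (xi H j) y) := by
  rw [ip_expand hH]
  refine Finset.sum_congr rfl fun j hj => ?_
  rw [ip_xi_mulVec hH (Finset.mem_range.1 hj)]
  ring

/-- The quadratic form in the eigenvectors. -/
theorem form_re (hH : H.IsHermitian) (y : ι → ℂ) :
    (ip y (H.mulVec y)).re = ∑ j ∈ Finset.range (Fintype.card ι), lam H j * ‖ip (xi H j) y‖ ^ 2 := by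
  rw [form_expand hH, Complex.re_sum]
  refine Finset.sum_congr rfl fun j _ => ?_
  rw [Complex.conj_mul', ← Complex.ofReal_pow, ← Complex.ofReal_mul, Complex.ofReal_re]

/-- The squares of the `u`-th entries of the eigenvectors add up to one. -/
theorem xi_col (hH : H.IsHermitian) (u : ι) : ∑ j ∈ Finset.range (Fintype.card ι), ‖xi H j u‖ ^ 2 = 1 := by
  have h := nsq_expand hH (Pi.single u 1)
  have h1 : nsq (Pi.single u 1 : ι → ℂ) = 1 := by
    unfold nsq
    rw [Finset.sum_eq_single u]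
    · simp
    · intro v _ hv
      simp [hv]
    · intro h
      exact absurd (Finset.mem_univ u) h
  rw [h1] at h
  rw [h]
  refine Finset.sum_congr rfl fun j _ => ?_
  congr 1
  unfold ip
  rw [Finset.sum_eq_single u]
  · simp
  · intro v _ hv
    simp [hv]
  · intro h
    exact absurd (Finset.mem_univ u) h

/-- Variational characterisation of the largest eigenvalue. -/
theorem rayleigh (hH : H.IsHermitian) (y : ι → ℂ) : (ip y (H.mulVec y)).re ≤ lam H 0 * nsq y := by
  rw [form_re hH, nsq_expand hH, Finset.mul_sum]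
  refine Finset.sum_le_sum fun j hj => ?_
  exact mul_le_mul_of_nonneg_right (lam_anti hH (Nat.zero_le j) (Finset.mem_range.1 hj)) (by positivity)

theorem top_xi (hH : H.IsHermitian) (hc : 0 < Fintype.card ι) : Top H (lam H 0) (xi H 0) :=
  ⟨xi_eig hH hc, fun y => rayleigh hH y⟩

/-- The eigenvalue of a nonzero top eigenvector is `lam H 0`. -/
theorem top_val (hH : H.IsHermitian) {l : ℝ} {x : ι → ℂ} (hx : x ≠ 0) (ht : Top H l x) : l = lam H 0 := by
  have hc : 0 < Fintype.card ι := by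
    rw [Fintype.card_pos_iff]
    by_contra h
    rw [not_nonempty_iff] at h
    exact hx (funext fun u => (h.false u).elim)
  have hpos : 0 < nsq x := lt_of_le_of_ne (nsq_nonneg x) fun h => hx (nsq_eq_zero.1 h.symm)
  apply le_antisymm
  · have h1 := rayleigh hH x
    rw [ht.1, ip_smul_right, ip_self, ← Complex.ofReal_mul, Complex.ofReal_re] at h1
    exact le_of_mul_le_mul_right h1 hpos
  · have h1 := ht.2 (xi H 0)
    rw [xi_eig hH hc, ip_smul_right, ip_self, xi_nsq hH hc, ← Complex.ofReal_mul, Complex.ofReal_re] at h1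
    simpa using h1

/-- A lower bound for the largest eigenvalue. -/
theorem le_lam_of (hH : H.IsHermitian) {l : ℝ} {y : ι → ℂ} (hy : y ≠ 0) (h : l * nsq y ≤ (ip y (H.mulVec y)).re) :
    l ≤ lam H 0 := by
  have hpos : 0 < nsq y := lt_of_le_of_ne (nsq_nonneg y) fun h => hy (nsq_eq_zero.1 h.symm)
  exact le_of_mul_le_mul_right (h.trans (rayleigh hH y)) hpos

/-- An upper bound for the largest eigenvalue. -/
theorem lam_le_of (hH : H.IsHermitian) (hc : 0 < Fintype.card ι) {l : ℝ}
    (h : ∀ y : ι → ℂ, (ip y (H.mulVec y)).re ≤ l * nsq y) : lam H 0 ≤ l := by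
  have h1 := h (xi H 0)
  rw [xi_eig hH hc, ip_smul_right, ip_self, xi_nsq hH hc, ← Complex.ofReal_mul, Complex.ofReal_re] at h1
  simpa using h1

/-- The trace is the sum of the eigenvalues. -/
theorem trace_lam (hH : H.IsHermitian) : (H.trace).re = ∑ j ∈ Finset.range (Fintype.card ι), lam H j := by
  have h1 : ∀ u : ι, (H u u).re = ∑ j ∈ Finset.range (Fintype.card ι), lam H j * ‖xi H j u‖ ^ 2 := by
    intro u
    have h := form_re hH (Pi.single u 1)
    have h2 : ip (Pi.single u 1) (H.mulVec (Pi.single u 1)) = H u u := by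
      unfold ip
      rw [Finset.sum_eq_single u]
      · simp
      · intro v _ hv
        simp [hv]
      · intro h
        exact absurd (Finset.mem_univ u) h
    rw [h2] at h
    rw [h]
    refine Finset.sum_congr rfl fun j _ => ?_
    congr 2
    unfold ip
    rw [Finset.sum_eq_single u]
    · simp
    · intro v _ hv
      simp [hv]
    · intro h
      exact absurd (Finset.mem_univ u) h
  unfold Matrix.trace
  rw [Complex.re_sum]
  simp only [Matrix.diag_apply, h1]
  rw [Finset.sum_comm]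
  refine Finset.sum_congr rfl fun j hj => ?_
  rw [← Finset.mul_sum]
  have h2 := xi_nsq hH (Finset.mem_range.1 hj)
  unfold nsq at h2
  rw [h2, mul_one]

end spec

end ACpFrege
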