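import Pool.Agent.H88.AF.Lay

/-!
helper88 (project MP_28250c_FF): mean and covariance of the entries of one layer; Hermitian symmetry.
-/

set_option autoImplicit false
set_option linter.unusedSectionVars false

namespace ACpFrege

variable {M q : ℕ}

/-- The entry `(u,v)` of a layer as a function of its coordinate. -/
noncomputable def ent (u v : Fin M) (z : ZMod (2 * q)) : ℂ :=
  if u < v then om (2 * q) z else if v < u then (starRingEnd ℂ) (om (2 * q) z) else (-1) ^ z.val

/-- The coordinate on which the entry `(u,v)` depends. -/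
def crd (u v : Fin M) : Fin M × Fin M := if u ≤ v then (u, v) else (v, u)

theorem lay_eq (ζ : Fin M → Fin M → ZMod (2 * q)) (u v : Fin M) :
    lay ζ u v = ent u v (ζ (crd u v).1 (crd u v).2) := by
  unfold lay ent crd
  rcases lt_trichotomy u v with h | h | h
  · rw [if_pos h, if_pos h, if_pos h.le]
  · subst h
    rw [if_neg (lt_irrefl u), if_neg (lt_irrefl u), if_neg (lt_irrefl u), if_neg (lt_irrefl u), if_pos le_rfl]
  · rw [if_neg (not_lt.2 h.le), if_pos h, if_neg (not_lt.2 h.le), if_pos h, if_neg (not_le.2 h)]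

theorem crd_eq {u v u' v' : Fin M} (h : crd u v = crd u' v') : (u' = u ∧ v' = v) ∨ (u' = v ∧ v' = u) := by
  unfold crd at h
  split_ifs at h <;> simp only [Prod.mk.injEq] at h <;> obtain ⟨h1, h2⟩ := h
  · exact Or.inl ⟨h1.symm, h2.symm⟩
  · exact Or.inr ⟨h2.symm, h1.symm⟩
  · exact Or.inr ⟨h1.symm, h2.symm⟩
  · exact Or.inl ⟨h2.symm, h1.symm⟩

variable [NeZero q]

theorem ent_add (u v : Fin M) (z s : ZMod (2 * q)) : ent u v (z + s) = ent u v z * ent u v s := by
  unfold ent
  split_ifs
  · exact om_add z s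
  · rw [om_add, map_mul]
  · exact sgn_add z s

theorem ent_norm (u v : Fin M) (z : ZMod (2 * q)) : ‖ent u v z‖ = 1 := by
  unfold ent
  split_ifs
  · exact om_norm z
  · rw [RCLike.norm_conj, om_norm]
  · exact sgn_norm z

theorem val_one_q : (1 : ZMod (2 * q)).val = 1 := by
  have h2 : 1 < 2 * q := by
    have := NeZero.pos q
    omega
  have : Fact (1 < 2 * q) := ⟨h2⟩
  exact ZMod.val_one (2 * q)

theorem ent_one_ne (u v : Fin M) : ent u v (1 : ZMod (2 * q)) ≠ 1 := by
  have hq := NeZero.pos q
  have h1 : om (2 * q) 1 ≠ 1 := by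
    have := om_one_pow_ne (n := 2 * q) (k := 1) one_pos (by omega)
    rwa [pow_one] at this
  unfold ent
  split_ifs
  · exact h1
  · intro h
    apply h1
    have := congrArg (starRingEnd ℂ) h
    rwa [Complex.conj_conj, map_one] at this
  · rw [val_one_q, pow_one]
    norm_num

theorem ent_swap {u v : Fin M} (h : u ≠ v) (z : ZMod (2 * q)) : ent v u z = (starRingEnd ℂ) (ent u v z) := by
  unfold ent
  rcases lt_or_gt_of_ne h with h | h
  · rw [if_neg (not_lt.2 h.le), if_pos h, if_pos h]
  · rw [if_pos h, if_neg (not_lt.2 h.le), if_pos h, Complex.conj_conj]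

theorem ent_real (u : Fin M) (z : ZMod (2 * q)) : (starRingEnd ℂ) (ent u u z) = ent u u z := by
  unfold ent
  rw [if_neg (lt_irrefl u), if_neg (lt_irrefl u), map_pow, map_neg, map_one]

theorem crd_swap {u v : Fin M} : crd v u = crd u v := by
  unfold crd
  rcases lt_trichotomy u v with h | h | h
  · rw [if_neg (not_le.2 h), if_pos h.le]
  · rw [h]
  · rw [if_pos h.le, if_neg (not_le.2 h)]

theorem lay_norm (ζ : Fin M → Fin M → ZMod (2 * q)) (u v : Fin M) : ‖lay ζ u v‖ = 1 := by
  rw [lay_eq, ent_norm]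

theorem lay_conj (ζ : Fin M → Fin M → ZMod (2 * q)) (u v : Fin M) : (starRingEnd ℂ) (lay ζ u v) = lay ζ v u := by
  rw [lay_eq, lay_eq, crd_swap]
  by_cases h : u = v
  · subst h
    exact ent_real _ _
  · rw [ent_swap h]

theorem lay_herm (ζ : Fin M → Fin M → ZMod (2 * q)) : (lay ζ).IsHermitian := by
  apply Matrix.IsHermitian.ext
  intro i j
  exact lay_conj ζ j i

theorem HH_herm {b : ℕ} (o : Om b M q) : (HH o).IsHermitian := by
  apply Matrix.IsHermitian.ext
  intro i j
  unfold HH
  simp only [RCLike.star_def, map_mul, map_sum, lay_conj, map_inv₀, Complex.conj_ofReal]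

/-- The shift of one coordinate of a layer. -/
def sh1 (c : Fin M × Fin M) (s : ZMod (2 * q)) : (Fin M → Fin M → ZMod (2 * q)) ≃ (Fin M → Fin M → ZMod (2 * q)) where
  toFun ζ := fun u v => if (u, v) = c then ζ u v + s else ζ u v
  invFun ζ := fun u v => if (u, v) = c then ζ u v - s else ζ u v
  left_inv ζ := by
    funext u v
    by_cases h : (u, v) = c <;> simp [h]
  right_inv ζ := by
    funext u v
    by_cases h : (u, v) = c <;> simp [h]

theorem lay_sh1 (ζ : Fin M → Fin M → ZMod (2 * q)) (u v : Fin M) (s : ZMod (2 * q)) :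
    lay (sh1 (crd u v) s ζ) u v = ent u v s * lay ζ u v := by
  rw [lay_eq, lay_eq, mul_comm (ent u v s), ← ent_add]
  simp [sh1]

theorem lay_sh1_ne (ζ : Fin M → Fin M → ZMod (2 * q)) (u v : Fin M) (c : Fin M × Fin M) (hc : crd u v ≠ c) (s : ZMod (2 * q)) :
    lay (sh1 c s ζ) u v = lay ζ u v := by
  rw [lay_eq, lay_eq]
  simp [sh1, hc]

/-- The entries have mean zero. -/
theorem lay_mean (u v : Fin M) : avc (fun ζ : Fin M → Fin M → ZMod (2 * q) => lay ζ u v) = 0 :=
  avc_zero_of (sh1 (crd u v) 1) _ (ent u v (1 : ZMod (2 * q))) (ent_one_ne u v) fun ζ => lay_sh1 ζ u v 1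

/-- Different entries are uncorrelated. -/
theorem lay_cov (hq : 2 ≤ q) (u v u' v' : Fin M) :
    avc (fun ζ : Fin M → Fin M → ZMod (2 * q) => (starRingEnd ℂ) (lay ζ u v) * lay ζ u' v') =
      if u' = u ∧ v' = v then 1 else 0 := by
  by_cases hc : crd u v = crd u' v'
  · by_cases he : u' = u ∧ v' = v
    · rw [if_pos he]
      obtain ⟨rfl, rfl⟩ := he
      have h1 : ∀ ζ : Fin M → Fin M → ZMod (2 * q), (starRingEnd ℂ) (lay ζ u' v') * lay ζ u' v' = 1 := by
        intro ζ
        rw [Complex.conj_mul', lay_norm]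
        norm_num
      rw [avc_congr h1, avc_const]
    · rw [if_neg he]
      rcases crd_eq hc with h | ⟨rfl, rfl⟩
      · exact absurd h he
      · have hne : v' ≠ u' := fun h => he ⟨h.symm, h⟩
        refine avc_zero_of (sh1 (crd v' u') 1) _ ((starRingEnd ℂ) (ent v' u' (1 : ZMod (2 * q))) * ent u' v' (1 : ZMod (2 * q))) ?_ ?_
        · rw [ent_swap hne (1 : ZMod (2 * q)), ← sq]
          have h2 : om (2 * q) 1 ^ 2 ≠ 1 := om_one_pow_ne (n := 2 * q) (k := 2) two_pos (by omega)
          have h3 : (starRingEnd ℂ) (om (2 * q) 1) ^ 2 ≠ 1 := by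
            intro h
            apply h2
            have := congrArg (starRingEnd ℂ) h
            rwa [map_pow, Complex.conj_conj, map_one] at this
          unfold ent
          rcases lt_or_gt_of_ne hne with h | h
          · rw [if_pos h]
            exact h3
          · rw [if_neg (not_lt.2 h.le), if_pos h, Complex.conj_conj]
            exact h2
        · intro ζ
          have h5 : lay (sh1 (crd v' u') 1 ζ) u' v' = ent u' v' (1 : ZMod (2 * q)) * lay ζ u' v' := by
            rw [crd_swap]
            exact lay_sh1 ζ u' v' 1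
          rw [lay_sh1, h5, map_mul]
          ring
  · rw [if_neg]
    · refine avc_zero_of (sh1 (crd u v) 1) _ ((starRingEnd ℂ) (ent u v (1 : ZMod (2 * q)))) ?_ ?_
      · intro h
        apply ent_one_ne (q := q) u v
        have := congrArg (starRingEnd ℂ) h
        rwa [Complex.conj_conj, map_one] at this
      · intro ζ
        rw [lay_sh1, lay_sh1_ne ζ u' v' (crd u v) (Ne.symm hc), map_mul]
        ring
    · rintro ⟨rfl, rfl⟩
      exact hc rfl

end ACpFrege
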