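import Pool.Agent.H88.AF.Gap

/-!
helper88 (project MP_28250c_AF): C5 from C1, C2, C4, and the good event.
-/

set_option autoImplicit false

namespace ACpFrege

theorem rr_pow (M : ℕ) : rr M ^ 400 = M := by
  unfold rr
  rw [← Real.rpow_natCast, ← Real.rpow_mul (by positivity)]
  norm_num

theorem rr_nonneg (M : ℕ) : 0 ≤ rr M := Real.rpow_nonneg (by positivity) _

theorem rr_sqrt (M : ℕ) : Real.sqrt M = rr M ^ 200 := by
  rw [← rr_pow M, show (400 : ℕ) = 200 * 2 from rfl, pow_mul, Real.sqrt_sq (pow_nonneg (rr_nonneg M) _)]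

theorem rr_ge {M c : ℕ} (h : c ^ 400 ≤ M) : (c : ℝ) ≤ rr M := by
  have h1 : (c : ℝ) ^ 400 ≤ rr M ^ 400 := by
    rw [rr_pow]
    exact_mod_cast h
  exact le_of_pow_le_pow_left₀ (by norm_num) (rr_nonneg M) h1

/-- C5: the base event. -/
theorem outC5_of (h1 : OutC1) (h2 : OutC2) (h4 : OutC4) : OutC5 := by
  intro q hq
  obtain ⟨M₀, hM₀⟩ := h4 q hq
  refine ⟨max M₀ (10 ^ 400), fun M hM L hL hL1 => ?_⟩
  have hMM : 10 ^ 400 ≤ M := (le_max_right _ _).trans hM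
  obtain ⟨b₄, hb₄⟩ := hM₀ M ((le_max_left _ _).trans hM)
  have hM10 : 10 ≤ M := le_trans (Nat.le_self_pow (by norm_num) 10) hMM
  have hM1 : 1 ≤ M := by omega
  have hM2 : 2 ≤ M := by omega
  obtain ⟨b₁, hb₁⟩ := h1 M q hM1 hq 1 one_pos
  set r := rr M with hr
  have hr10 : (10 : ℝ) ≤ r := by
    have := rr_ge (M := M) (c := 10) hMM
    exact_mod_cast this
  have hr1 : 1 ≤ r := by linarith
  have hr0 : 0 < r := by linarith
  have hL0 : 1 ≤ L := by
    by_contra hc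
    have h0 : L = 0 := by omega
    rw [h0, zero_add, one_pow] at hL1
    omega
  have hL0' : (1 : ℝ) ≤ L := by exact_mod_cast hL0
  have hLr : (L : ℝ) ≤ r := rr_ge hL
  clear hM hMM hL hL1
  obtain ⟨a, ha⟩ : ∃ a : ℝ, a = r ^ 4 := ⟨_, rfl⟩
  have ha4 : (10 : ℝ) ^ 4 ≤ a := by
    rw [ha]
    exact pow_le_pow_left₀ (by norm_num) hr10 4
  have ha1 : 1 ≤ a := le_trans (by norm_num) ha4
  have ha0 : 0 < a := by linarith
  set s : ℝ := Real.sqrt M with hs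
  have hsr : s = a ^ 50 := by
    rw [hs, rr_sqrt, ← hr, ha, ← pow_mul]
  have hs0 : 0 < s := by rw [hsr]; exact pow_pos ha0 50
  have hss : s ^ 2 = M := Real.sq_sqrt (by positivity)
  set d : ℝ := dd M with hd
  have hdr : d = (a ^ 5)⁻¹ := by
    rw [ha, ← pow_mul]
    rfl
  have hd0 : 0 < d := by rw [hdr]; exact inv_pos.2 (pow_pos ha0 5)
  set g : ℝ := gg M L with hg
  have hgL : g = (L : ℝ) ^ 16 / s := rfl
  have hLp : (1 : ℝ) ≤ (L : ℝ) ^ 16 := one_le_pow₀ hL0'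
  have hLp2 : (L : ℝ) ^ 16 ≤ a ^ 4 := by
    rw [ha, ← pow_mul]
    exact pow_le_pow_left₀ (by positivity) hLr 16
  have hg0 : 0 < g := by rw [hgL]; positivity
  have hpow4 : ∀ n : ℕ, 1 ≤ n → (10 : ℝ) ^ 4 ≤ a ^ n := fun n hn =>
    ha4.trans (le_self_pow₀ ha1 (by omega))
  have hpow8 : ∀ n : ℕ, 2 ≤ n → (10 : ℝ) ^ 8 ≤ a ^ n := fun n hn => by
    have h1 := (pow_le_pow_left₀ (by norm_num) ha4 2).trans (pow_le_pow_right₀ ha1 hn)
    norm_num at h1 ⊢
    exact h1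
  have hg2 : g * a ^ 46 ≤ 1 := by
    rw [hgL, hsr, div_mul_eq_mul_div, div_le_one (pow_pos ha0 50)]
    calc (L : ℝ) ^ 16 * a ^ 46 ≤ a ^ 4 * a ^ 46 := mul_le_mul_of_nonneg_right hLp2 (pow_nonneg ha0.le 46)
      _ = a ^ 50 := by rw [← pow_add]
  have hg3 : g ≤ 1 / 10 ^ 8 := by
    rw [le_div_iff₀ (by norm_num)]
    calc g * 10 ^ 8 ≤ g * a ^ 46 := mul_le_mul_of_nonneg_left (hpow8 46 (by norm_num)) hg0.le
      _ ≤ 1 := hg2
  have hds : d * s = a ^ 45 := by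
    rw [hdr, hsr, inv_mul_eq_div, div_eq_iff (pow_pos ha0 5).ne', ← pow_add]
  have hd2s : s * d ^ 2 = a ^ 40 := by
    rw [hdr, hsr, inv_pow, ← pow_mul, ← div_eq_mul_inv, div_eq_iff (pow_pos ha0 _).ne', ← pow_add]
  have hMd : (M : ℝ) * d ^ 4 = a ^ 80 := by
    rw [← hss, hsr, hdr, inv_pow, ← pow_mul, ← pow_mul, ← div_eq_mul_inv, div_eq_iff (pow_pos ha0 _).ne', ← pow_add]
  set B : ℝ := max (600 * M / g) (M ^ 8 / d ^ 2) with hB
  have hB0 : 0 ≤ B := le_max_of_le_left (by positivity)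
  refine ⟨max (max b₁ b₄) (⌈B ^ 2⌉₊ + 1), fun b hb => ?_⟩
  intro _
  have hbb1 : b₁ ≤ b := (le_max_left _ _).trans ((le_max_left _ _).trans hb)
  have hbb4 : b₄ ≤ b := (le_max_right _ _).trans ((le_max_left _ _).trans hb)
  have hbB : ⌈B ^ 2⌉₊ + 1 ≤ b := (le_max_right _ _).trans hb
  have hb1 : 1 ≤ b := by omega
  have hb0' : (0 : ℝ) < b := by exact_mod_cast hb1
  have hsb : B ≤ Real.sqrt b := by
    apply Real.le_sqrt_of_sq_le
    have h5 : (⌈B ^ 2⌉₊ : ℝ) ≤ b := by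
      have : ⌈B ^ 2⌉₊ ≤ b := by omega
      exact_mod_cast this
    exact (Nat.le_ceil _).trans h5
  have hsb0 : 0 < Real.sqrt b := Real.sqrt_pos.2 hb0'
  have hM' : (0 : ℝ) < M := by exact_mod_cast hM1
  obtain ⟨hA3, hA4⟩ := hb₄ b hbb4
  have hA1 := hb₁ b hbb1
  have hA2 := h2 M q b hM1 hq hb1
  have hd1 : d ≤ 1 / 10000 := by
    rw [hdr, inv_eq_one_div]
    refine one_div_le_one_div_of_le (by norm_num) ?_
    have := hpow4 5 (by norm_num)
    norm_num at this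
    exact this
  have hvir := virial (M := M) (q := q) (by omega : 2 ≤ q) hM1 hb1 (σ := d / 2) (by positivity) (by linarith)
  have hvir2 : (M : ℝ) ^ 8 / (6 * Real.sqrt b * (d / 2) ^ 2) ≤ 1 := by
    rw [div_le_one (by positivity)]
    have h5 : (M : ℝ) ^ 8 / d ^ 2 ≤ Real.sqrt b := (le_max_right _ _).trans hsb
    rw [div_le_iff₀ (by positivity)] at h5
    nlinarith [mul_nonneg hsb0.le (sq_nonneg d)]
  have he100 : 100 * (3 * (2 * (M : ℝ) / Real.sqrt b)) ≤ g := by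
    have h5 : 600 * (M : ℝ) / g ≤ Real.sqrt b := (le_max_left _ _).trans hsb
    rw [div_le_iff₀ hg0] at h5
    have h6 : 100 * (3 * (2 * (M : ℝ) / Real.sqrt b)) = 600 * M / Real.sqrt b := by ring
    rw [h6, div_le_iff₀ hsb0]
    linarith
  have hs1 : 10000 ≤ s := by
    rw [hsr]
    have := hpow4 50 (by norm_num)
    norm_num at this
    exact this
  have hcount : s / (100 * g) + 1 ≤ (M : ℝ) / 5 := by
    have h5 : s / (100 * g) = M / (100 * (L : ℝ) ^ 16) := by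
      rw [hgL, ← hss]
      field_simp
    have h6 : (M : ℝ) / (100 * (L : ℝ) ^ 16) ≤ M / 100 := by
      apply div_le_div_of_nonneg_left (by positivity) (by norm_num)
      linarith
    have h7 : (10 : ℝ) ≤ M := by exact_mod_cast hM10
    rw [h5]
    linarith
  obtain ⟨k, hk1, hk2, hk3⟩ := c5_core (M := M) (q := q) hM2 (b := b) (s := s) (d := d) (g := g)
    (e := 3 * (2 * (M : ℝ) / Real.sqrt b)) (θ₀ := 1.99 * s - 2 * g) hs hs1 hd0 hd1
    (by rw [hds]; exact (by norm_num : (6 : ℝ) ≤ 10 ^ 4).trans (hpow4 45 (by norm_num)))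
    (by rw [hd2s]; exact (by norm_num : (1 : ℝ) ≤ 10 ^ 4).trans (hpow4 40 (by norm_num)))
    hg0 (by linarith)
    (by
      rw [hd2s]
      have := hpow4 40 (by norm_num)
      linarith)
    (by
      rw [hds]
      have h5 : (g * a ^ 45) * a ≤ 1 := by
        rw [mul_assoc, ← pow_succ]
        exact hg2
      have h6 : (g * a ^ 45) * 10 ^ 4 ≤ (g * a ^ 45) * a :=
        mul_le_mul_of_nonneg_left ha4 (mul_nonneg hg0.le (pow_nonneg ha0.le 45))
      linarith)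
    (by positivity) rfl he100 hcount hA1 hA2
    (by
      refine hA3.trans ?_
      rw [hMd, div_le_iff₀ (by positivity)]
      have := hpow4 80 (by norm_num)
      linarith)
    hA4 (by linarith) rfl
  exact ⟨_, hk1, hk2, hk3⟩

theorem pr_and_lower {Ω : Type} [Fintype Ω] (A C : Ω → Prop) : pr A ≤ pr (fun x => A x ∧ ¬ C x) + pr (fun x => A x ∧ C x) := by
  refine le_trans (pr_mono fun x hx => ?_) (pr_or _ _)
  by_cases h : C x
  · exact Or.inr ⟨hx, h⟩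
  · exact Or.inl ⟨hx, h⟩

/-- The good event. -/
theorem outG_of (h5 : OutC5) (hD : OutD) (hE : OutE) : OutG := by
  intro q hq
  obtain ⟨M₁, hM₁⟩ := h5 q hq
  obtain ⟨M₂, hM₂⟩ := hD q hq
  obtain ⟨M₃, hM₃⟩ := hE q hq
  refine ⟨max (max M₁ 1) (max M₂ M₃), fun M hM L hL hL1 => ?_⟩
  obtain ⟨b₀, hb₀⟩ := hM₁ M ((le_max_left _ _).trans ((le_max_left _ _).trans hM)) L hL hL1
  refine ⟨max b₀ 1, fun b hb => ?_⟩
  intro _
  obtain ⟨θ, hθ1, hθ2, hθ3⟩ := hb₀ b ((le_max_left _ _).trans hb)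
  have hMpos : (0 : ℝ) < M := by
    have : 1 ≤ M := (le_max_right _ _).trans ((le_max_left _ _).trans hM)
    exact_mod_cast this
  refine ⟨θ, hθ1, hθ2, ?_⟩
  have hb1 : b ≥ 1 := (le_max_right _ _).trans hb
  have hd := hM₂ M ((le_max_left _ _).trans ((le_max_right _ _).trans hM)) L hL hL1 b hb1 θ hθ1 hθ2
  have he := hM₃ M ((le_max_right _ _).trans ((le_max_right _ _).trans hM)) L hL hL1 b hb1
  clear hL hL1
  have h6 := pr_and_lower (fun o : Om b M q => Base θ (gg M L) (HH o))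
    (fun o => (∃ u, 1000 * Real.log M / M < ‖xi (HH o) 0 u‖ ^ 2) ∨ ∃ u v, (L : ℝ) < ‖HH o u v‖)
  have h7 : pr (fun o : Om b M q => Base θ (gg M L) (HH o) ∧
      ((∃ u, 1000 * Real.log M / M < ‖xi (HH o) 0 u‖ ^ 2) ∨ ∃ u v, (L : ℝ) < ‖HH o u v‖)) ≤ 1 / (8 * M) + 1 / (8 * M) := by
    refine le_trans (pr_mono fun o ho => ?_) ((pr_or _ _).trans (add_le_add hd he))
    rcases ho.2 with h | h
    · exact Or.inl ⟨ho.1, h⟩
    · exact Or.inr h
  have h8 : pr (fun o : Om b M q => Base θ (gg M L) (HH o) ∧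
      ¬ ((∃ u, 1000 * Real.log M / M < ‖xi (HH o) 0 u‖ ^ 2) ∨ ∃ u v, (L : ℝ) < ‖HH o u v‖)) ≤
      pr (fun o : Om b M q => GoodH L θ (HH o)) := by
    refine pr_mono fun o ho => ?_
    obtain ⟨ho1, ho2⟩ := ho
    push Not at ho2
    exact ⟨ho1, ho2.1, ho2.2⟩
  have h9 : 1 / (M : ℝ) = 1 / (2 * M) + 1 / (8 * M) + 1 / (8 * M) + 1 / (4 * M) := by
    field_simp
    norm_num
  have h10 : (0 : ℝ) ≤ 1 / (4 * M) := by positivity
  linarith

end ACpFrege
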