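import Pool.Agent.H88.AF.Vir
import Pool.Agent.H88.AF.C4Defs

/-!
helper88 (project MP_28250c_AF): C5, the gap and the base event.
-/

set_option autoImplicit false
set_option linter.unusedSectionVars false

namespace ACpFrege

variable {M q : ℕ} [NeZero q]

/-- The deterministic part of the gap estimate: on `lam0 ≤ T` the spectral sums differ by at least the first term. -/
theorem sum_diff {n : ℕ} {l : ℕ → ℝ} (hl : ∀ j ∈ Finset.Ico 1 n, l j ≤ l 0) {t e D : ℝ} (he : 0 < e) (hD : 0 < D)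
    (ht : l 0 + D ≤ t) (heD : e ≤ D) :
    ∑ j ∈ Finset.Ico 1 n, 1 / (t - l j) ≤ ∑ j ∈ Finset.Ico 1 n, 1 / (l 0 - l j + e) := by
  refine Finset.sum_le_sum fun j hj => ?_
  have := hl j hj
  exact one_div_le_one_div_of_le (by linarith) (by linarith)

theorem sum_diff_gap {n : ℕ} (hn : 2 ≤ n) {l : ℕ → ℝ} (hl : ∀ j ∈ Finset.Ico 1 n, l j ≤ l 0) {t e D g : ℝ} (he : 0 < e)
    (hD : 0 < D) (ht : l 0 + D ≤ t) (heD : e ≤ D) (hg : 0 < g) (heg : e ≤ g) (hgD : 10302 * g ≤ D) (hgap : l 0 - l 1 ≤ 100 * g) :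
    1 / (102 * g) + ∑ j ∈ Finset.Ico 1 n, 1 / (t - l j) ≤ ∑ j ∈ Finset.Ico 1 n, 1 / (l 0 - l j + e) := by
  have hmem : 1 ∈ Finset.Ico 1 n := Finset.mem_Ico.2 ⟨le_rfl, by omega⟩
  rw [← Finset.add_sum_erase _ _ hmem, ← Finset.add_sum_erase (Finset.Ico 1 n) (fun j => 1 / (l 0 - l j + e)) hmem]
  have h1 : ∑ j ∈ (Finset.Ico 1 n).erase 1, 1 / (t - l j) ≤ ∑ j ∈ (Finset.Ico 1 n).erase 1, 1 / (l 0 - l j + e) := by
    refine Finset.sum_le_sum fun j hj => ?_
    have := hl j (Finset.mem_of_mem_erase hj)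
    exact one_div_le_one_div_of_le (by linarith) (by linarith)
  have h2 : 1 / (101 * g) ≤ 1 / (l 0 - l 1 + e) := by
    have := hl 1 hmem
    exact one_div_le_one_div_of_le (by linarith) (by linarith)
  have h3 : 1 / (t - l 1) ≤ 1 / (10302 * g) := by
    have := hl 1 hmem
    exact one_div_le_one_div_of_le (by linarith) (by linarith)
  have h4 : 1 / (102 * g) + 1 / (10302 * g) = 1 / (101 * g) := by
    field_simp
    norm_num
  linarith

theorem base_of {n : ℕ} {H : Matrix (Fin n) (Fin n) ℂ} (hH : H.IsHermitian) {θ g e s : ℝ} (he : 0 < e)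
    (hg : 0 < g) (heg : 100 * e ≤ g) (h1 : θ + 2 * g ≤ lam H 0) (h2 : lam H 0 ≤ θ + 4 * g) (hn : 2 ≤ n)
    (hgap : 100 * g < lam H 0 - lam H 1)
    (hX : ∑ j ∈ Finset.Ico 1 n, 1 / (lam H 0 - lam H j + e) ≤ 1.5 * s) :
    ∑ j ∈ Finset.Ico 1 n, 1 / (θ - lam H j) ≤ 1.6 * s := by
  have hc : Fintype.card (Fin n) = n := Fintype.card_fin n
  have hpos : ∀ j ∈ Finset.Ico 1 n, 100 * g < lam H 0 - lam H j := by
    intro j hj
    have h := lam_anti hH (Finset.mem_Ico.1 hj).1 (by rw [hc]; exact (Finset.mem_Ico.1 hj).2)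
    linarith
  have h3 : ∀ j ∈ Finset.Ico 1 n, 1 / (θ - lam H j) ≤ 16 / 15 * (1 / (lam H 0 - lam H j + e)) := by
    intro j hj
    have h := hpos j hj
    rw [mul_one_div, div_le_div_iff₀ (by linarith) (by linarith)]
    linarith
  calc ∑ j ∈ Finset.Ico 1 n, 1 / (θ - lam H j) ≤ ∑ j ∈ Finset.Ico 1 n, 16 / 15 * (1 / (lam H 0 - lam H j + e)) :=
        Finset.sum_le_sum h3
    _ = 16 / 15 * ∑ j ∈ Finset.Ico 1 n, 1 / (lam H 0 - lam H j + e) := by rw [Finset.mul_sum]
    _ ≤ 1.6 * s := by linarith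

open Classical in
/-- C5 for fixed parameters: `s = √M`. -/
theorem c5_core (hM2 : 2 ≤ M) {b : ℕ} {s d g e θ₀ : ℝ} (hs : s = Real.sqrt M) (hs1 : 10000 ≤ s) (hd : 0 < d) (hd1 : d ≤ 1 / 10000)
    (hds : 6 ≤ d * s) (hd2 : 1 ≤ s * d ^ 2) (hg : 0 < g) (hgs : g ≤ s / 1000) (hgD : 10302 * g ≤ s * d ^ 2)
    (hgd : 306 * g * (d * s) ≤ 1 / 20) (he : 0 < e) (heb : e = 3 * (2 * M / Real.sqrt b)) (heg : 100 * e ≤ g)
    (hcount : s / (100 * g) + 1 ≤ M / 5)
    (hA1 : av (fun o : Om b M q => lam (HH o) 0) ≤ 2 * s + 1)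
    (hA2 : av (fun o : Om b M q => (lam (HH o) 0 - av (fun o : Om b M q => lam (HH o) 0)) ^ 2) ≤ 3)
    (hA3 : pr (fun o : Om b M q => 2 * s * (1 + d ^ 2 / 2) < lam (HH o) 0) ≤ 1 / 100)
    (hA4 : s * (1 - 2 * d) ≤ av (fun o : Om b M q => if lam (HH o) 0 ≤ 2 * s * (1 + d ^ 2 / 2) then
      ∑ j ∈ Finset.range M, 1 / (2 * s * (1 + d ^ 2) - lam (HH o) j) else 0))
    (hA5 : (2 - d / 2) * av (fun o : Om b M q => XM b (HH o)) ≤ av (fun o : Om b M q => lam (HH o) 0) + 1)
    (hθ₀ : θ₀ = 1.99 * s - 2 * g) :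
    ∃ k : ℕ, 1.98 * s ≤ θ₀ + 2 * g * k ∧ θ₀ + 2 * g * k ≤ 2.1 * s ∧
      1 / (M : ℝ) ≤ pr (fun o : Om b M q => Base (θ₀ + 2 * g * k) g (HH o)) := by
  have hcard : Fintype.card (Fin M) = M := Fintype.card_fin M
  have hM' : (0 : ℝ) < M := by
    have : 0 < M := by omega
    exact_mod_cast this
  set t : ℝ := 2 * s * (1 + d ^ 2) with ht
  set T : ℝ := 2 * s * (1 + d ^ 2 / 2) with hT
  set D : ℝ := s * d ^ 2 with hD
  have htT : T + D = t := by
    rw [ht, hT, hD]
    ring
  have hDpos : 0 < D := by linarith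
  have heD : e ≤ D := by linarith
  set X : Om b M q → ℝ := fun o => XM b (HH o) with hX
  set E : ℝ := av (fun o : Om b M q => lam (HH o) 0) with hE
  set Y : Om b M q → ℝ := fun o => if lam (HH o) 0 ≤ T then ∑ j ∈ Finset.Ico 1 M, 1 / (t - lam (HH o) j) else 0 with hY
  have hl : ∀ o : Om b M q, ∀ j ∈ Finset.Ico 1 M, lam (HH o) j ≤ lam (HH o) 0 := fun o j hj =>
    lam_anti (HH_herm o) (Nat.zero_le j) (by rw [hcard]; exact (Finset.mem_Ico.1 hj).2)
  have hXe : ∀ o : Om b M q, X o = ∑ j ∈ Finset.Ico 1 M, 1 / (lam (HH o) 0 - lam (HH o) j + e) := by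
    intro o
    simp only [hX, XM, heb]
  have hX0 : ∀ o : Om b M q, 0 ≤ X o := by
    intro o
    rw [hXe]
    refine Finset.sum_nonneg fun j hj => ?_
    have := hl o j hj
    exact one_div_nonneg.2 (by linarith)
  have hYX : ∀ o : Om b M q, Y o ≤ X o := by
    intro o
    simp only [hY]
    split_ifs with h
    · rw [hXe]
      exact sum_diff (hl o) he hDpos (by linarith) heD
    · exact hX0 o
  -- the average of `Y`
  have hYav : s * (1 - 2 * d) - 1 ≤ av Y := by
    have h1 : ∀ o : Om b M q, (if lam (HH o) 0 ≤ T then ∑ j ∈ Finset.range M, 1 / (t - lam (HH o) j) else 0) ≤ Y o + 1 := by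
      intro o
      simp only [hY]
      split_ifs with h
      · rw [Finset.sum_range_eq_add_Ico _ (by omega : 0 < M)]
        have h3 : 1 / (t - lam (HH o) 0) ≤ 1 := by
          rw [div_le_one (by linarith)]
          linarith
        linarith
      · norm_num
    have h2 := av_mono h1
    rw [av_add, av_const] at h2
    linarith
  have hEX : av X ≤ s * (1 + d / 2) + 2 := by
    have h1 : (2 - d / 2) * av X ≤ 2 * s + 2 := by linarith
    have h2 : 2 * s + 2 ≤ (2 - d / 2) * (s * (1 + d / 2) + 2) := by nlinarith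
    exact le_of_mul_le_mul_left (h1.trans h2) (by linarith)
  have hXY : av X - av Y ≤ 3 * (d * s) := by nlinarith
  -- the gap
  have hgap : pr (fun o : Om b M q => lam (HH o) 0 ≤ T ∧ lam (HH o) 0 - lam (HH o) 1 ≤ 100 * g) ≤ 1 / 20 := by
    have h1 : ∀ o : Om b M q, (if (lam (HH o) 0 ≤ T ∧ lam (HH o) 0 - lam (HH o) 1 ≤ 100 * g) then (1 : ℝ) else 0) ≤
        102 * g * (X o - Y o) := by
      intro o
      split_ifs with h
      · have h2 := sum_diff_gap hM2 (hl o) he hDpos (by linarith [h.1] : lam (HH o) 0 + D ≤ t) heD hg (by linarith) hgD h.2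
        rw [← hXe] at h2
        have h3 : Y o = ∑ j ∈ Finset.Ico 1 M, 1 / (t - lam (HH o) j) := by
          simp only [hY]
          rw [if_pos h.1]
        rw [← h3] at h2
        have h4 : 102 * g * (1 / (102 * g)) ≤ 102 * g * (X o - Y o) :=
          mul_le_mul_of_nonneg_left (by linarith) (by positivity)
        have h5 : 102 * g * (1 / (102 * g)) = 1 := by field_simp
        linarith
      · have := hYX o
        exact mul_nonneg (by positivity) (by linarith)
    have h2 := av_mono h1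
    rw [av_mul, av_sub] at h2
    have h3 : 102 * g * (av X - av Y) ≤ 102 * g * (3 * (d * s)) := mul_le_mul_of_nonneg_left hXY (by positivity)
    unfold pr
    refine le_trans (le_of_eq ?_) (h2.trans (h3.trans (by linarith)))
    refine av_congr fun o => ?_
    by_cases h : (lam (HH o) 0 ≤ T ∧ lam (HH o) 0 - lam (HH o) 1 ≤ 100 * g)
    · rw [if_pos h, if_pos h]
    · rw [if_neg h, if_neg h]
  -- lower bound for the largest eigenvalue
  have hElow : 1.999 * s ≤ E := by
    have h1 : av Y ≤ av X := av_mono hYX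
    have h2 : (2 - d / 2) * (s * (1 - 2 * d) - 1) ≤ (2 - d / 2) * av X :=
      mul_le_mul_of_nonneg_left (hYav.trans h1) (by linarith)
    have h3 : (2 - d / 2) * (s * (1 - 2 * d) - 1) = 2 * s - 9 / 2 * (d * s) + d * (d * s) - 2 + d / 2 := by ring
    have h4 : d * s ≤ s / 10000 := by
      have := mul_le_mul_of_nonneg_right hd1 (by linarith : (0 : ℝ) ≤ s)
      linarith
    have h5 : 0 ≤ d * (d * s) := by positivity
    linarith
  have hlow : pr (fun o : Om b M q => lam (HH o) 0 < 1.99 * s) ≤ 1 / 100 := by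
    have h1 : pr (fun o : Om b M q => lam (HH o) 0 < 1.99 * s) ≤
        pr (fun o : Om b M q => (0.009 * s) ^ 2 ≤ (lam (HH o) 0 - E) ^ 2) := by
      refine pr_mono fun o ho => ?_
      have h2 : 0.009 * s ≤ E - lam (HH o) 0 := by linarith
      have h3 : (lam (HH o) 0 - E) ^ 2 = (E - lam (HH o) 0) ^ 2 := by ring
      rw [h3]
      exact pow_le_pow_left₀ (by positivity) h2 2
    refine h1.trans ((markov (fun o => by positivity) (by positivity)).trans ?_)
    rw [div_le_iff₀ (by positivity)]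
    refine hA2.trans ?_
    nlinarith
  have hXbig : pr (fun o : Om b M q => 1.5 * s < X o) ≤ 0.67 := by
    have h1 : pr (fun o : Om b M q => 1.5 * s < X o) ≤ pr (fun o : Om b M q => 1.5 * s ≤ X o) :=
      pr_mono fun o ho => ho.le
    refine h1.trans ((markov hX0 (by positivity)).trans ?_)
    rw [div_le_iff₀ (by positivity)]
    have h4 : d * s ≤ s / 10000 := by
      have := mul_le_mul_of_nonneg_right hd1 (by linarith : (0 : ℝ) ≤ s)
      linarith
    linarith
  -- the good event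
  set Z : Om b M q → Prop := fun o => lam (HH o) 0 ≤ T ∧ 100 * g < lam (HH o) 0 - lam (HH o) 1 ∧ 1.99 * s ≤ lam (HH o) 0 ∧
    X o ≤ 1.5 * s with hZ
  have hprZ : 1 / 5 < pr Z := by
    have h1 : pr (fun o : Om b M q => ¬ Z o) ≤ pr (fun o : Om b M q => T < lam (HH o) 0) +
        (pr (fun o : Om b M q => lam (HH o) 0 ≤ T ∧ lam (HH o) 0 - lam (HH o) 1 ≤ 100 * g) +
        (pr (fun o : Om b M q => lam (HH o) 0 < 1.99 * s) + pr (fun o : Om b M q => 1.5 * s < X o))) := by
      refine le_trans ?_ (add_le_add_right (add_le_add_right (pr_or _ _) _) _)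
      refine le_trans ?_ (add_le_add_right (pr_or _ _) _)
      refine le_trans ?_ (pr_or _ _)
      refine pr_mono fun o ho => ?_
      by_contra hn
      push Not at hn
      obtain ⟨h2, h3, h4, h5⟩ := hn
      exact ho ⟨h2, h3 h2, h4, h5⟩
    rw [pr_not] at h1
    have : (0.67 : ℝ) = 67 / 100 := by norm_num
    linarith
  -- the number of windows
  set K : ℕ := ⌊s / (100 * g)⌋₊ with hK
  have hKle : (K : ℝ) ≤ s / (100 * g) := Nat.floor_le (by positivity)
  have hcov : pr Z ≤ ∑ k ∈ Finset.range (K + 1), pr (fun o : Om b M q => Base (θ₀ + 2 * g * k) g (HH o)) := by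
    refine le_trans ?_ (pr_exists (Finset.range (K + 1)) (fun k (o : Om b M q) => Base (θ₀ + 2 * g * (k : ℝ)) g (HH o)))
    refine pr_mono fun o ho => ?_
    obtain ⟨h1, h2, h3, h4⟩ := ho
    set y : ℝ := (lam (HH o) 0 - 1.99 * s) / (2 * g) with hy
    have hy0 : 0 ≤ y := div_nonneg (by linarith) (by positivity)
    have hyg : y * (2 * g) = lam (HH o) 0 - 1.99 * s := by
      rw [hy]
      field_simp
    have hfl := Nat.floor_le hy0
    have hfl2 := Nat.lt_floor_add_one y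
    refine ⟨⌊y⌋₊, ?_, ?_⟩
    · rw [Finset.mem_range, Nat.lt_succ_iff, hK]
      apply Nat.floor_le_floor
      rw [hy, div_le_div_iff₀ (by positivity) (by positivity)]
      have h5 : lam (HH o) 0 - 1.99 * s ≤ 0.02 * s := by
        have h6 : s * d ^ 2 ≤ s / 1000 := by
          have h7 : d ^ 2 ≤ 1 / 1000 := by nlinarith
          have := mul_le_mul_of_nonneg_left h7 (by linarith : (0 : ℝ) ≤ s)
          linarith
        have h8 : T = 2 * s + s * d ^ 2 := by rw [hT]; ring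
        linarith
      have h9 : (lam (HH o) 0 - 1.99 * s) * (100 * g) ≤ 0.02 * s * (100 * g) :=
        mul_le_mul_of_nonneg_right h5 (by positivity)
      linarith
    · have h5 : (⌊y⌋₊ : ℝ) * (2 * g) ≤ y * (2 * g) := mul_le_mul_of_nonneg_right hfl (by positivity)
      have h6 : y * (2 * g) ≤ ((⌊y⌋₊ : ℝ) + 1) * (2 * g) := mul_le_mul_of_nonneg_right hfl2.le (by positivity)
      have h7 : θ₀ + 2 * g * (⌊y⌋₊ : ℝ) + 2 * g ≤ lam (HH o) 0 := by
        rw [hθ₀]
        linarith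
      have h8 : lam (HH o) 0 ≤ θ₀ + 2 * g * (⌊y⌋₊ : ℝ) + 4 * g := by
        rw [hθ₀]
        linarith
      refine ⟨h7, h8, by linarith, ?_⟩
      rw [← hs]
      refine base_of (HH_herm o) he hg heg h7 h8 hM2 h2 ?_
      rw [← hXe]
      exact h4
  by_contra hno
  push Not at hno
  have h1 : ∀ k ∈ Finset.range (K + 1), pr (fun o : Om b M q => Base (θ₀ + 2 * g * k) g (HH o)) ≤ 1 / (M : ℝ) := by
    intro k hk
    have hk' : (k : ℝ) ≤ K := by exact_mod_cast Nat.lt_succ_iff.1 (Finset.mem_range.1 hk)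
    have h2 : 2 * g * (k : ℝ) ≤ 0.02 * s := by
      calc 2 * g * (k : ℝ) ≤ 2 * g * (s / (100 * g)) := mul_le_mul_of_nonneg_left (hk'.trans hKle) (by positivity)
        _ = 0.02 * s := by
          field_simp
          norm_num
    refine (hno k ?_ ?_).le
    · rw [hθ₀]
      have : 0 ≤ 2 * g * (k : ℝ) := by positivity
      linarith
    · rw [hθ₀]
      linarith
  have h2 := hcov.trans (Finset.sum_le_sum h1)
  rw [Finset.sum_const, Finset.card_range, nsmul_eq_mul] at h2
  push_cast at h2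
  have h3 : ((K : ℝ) + 1) * (1 / M) ≤ 1 / 5 := by
    rw [mul_one_div, div_le_iff₀ hM']
    linarith
  linarith

end ACpFrege
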