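import Pool.Agent.H88.AF.OmF

/-!
helper88 (project MP_28250c_FF): moments of one layer and averages on products.
-/

set_option autoImplicit false

namespace ACpFrege

/-- The complex average over a finite type. -/
noncomputable def avc {Ω : Type} [Fintype Ω] (f : Ω → ℂ) : ℂ := (∑ x, f x) / Fintype.card Ω

section avc

variable {Ω : Type} [Fintype Ω]

theorem avc_re (f : Ω → ℂ) : (avc f).re = av fun x => (f x).re := by
  unfold avc av
  rw [← Complex.ofReal_natCast, Complex.div_ofReal_re, Complex.re_sum]

theorem avc_im (f : Ω → ℂ) : (avc f).im = av fun x => (f x).im := by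
  unfold avc av
  rw [← Complex.ofReal_natCast, Complex.div_ofReal_im, Complex.im_sum]

theorem avc_ofReal (f : Ω → ℝ) : avc (fun x => (f x : ℂ)) = (av f : ℂ) := by
  unfold avc av
  push_cast
  rfl

theorem avc_add (f g : Ω → ℂ) : avc (fun x => f x + g x) = avc f + avc g := by
  simp [avc, Finset.sum_add_distrib, add_div]

theorem avc_sub (f g : Ω → ℂ) : avc (fun x => f x - g x) = avc f - avc g := by
  simp [avc, Finset.sum_sub_distrib, sub_div]

theorem avc_mul (c : ℂ) (f : Ω → ℂ) : avc (fun x => c * f x) = c * avc f := by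
  simp [avc, Finset.mul_sum, mul_div_assoc, Finset.sum_div]

theorem avc_mul_right (c : ℂ) (f : Ω → ℂ) : avc (fun x => f x * c) = avc f * c := by
  rw [mul_comm, ← avc_mul]
  congr 1
  funext x
  ring

theorem avc_sum {α : Type} (s : Finset α) (f : α → Ω → ℂ) : avc (fun x => ∑ a ∈ s, f a x) = ∑ a ∈ s, avc (f a) := by
  unfold avc
  rw [Finset.sum_comm, Finset.sum_div]

theorem avc_const [Nonempty Ω] (c : ℂ) : avc (fun _ : Ω => c) = c := by
  unfold avc
  rw [Finset.sum_const, Finset.card_univ, nsmul_eq_mul]
  have : (Fintype.card Ω : ℂ) ≠ 0 := by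
    have := Fintype.card_pos (α := Ω)
    exact_mod_cast this.ne'
  field_simp

theorem avc_congr {f g : Ω → ℂ} (h : ∀ x, f x = g x) : avc f = avc g := by
  have : f = g := funext h
  rw [this]

theorem avc_comp (e : Ω ≃ Ω) (f : Ω → ℂ) : avc (fun x => f (e x)) = avc f := by
  unfold avc
  rw [e.sum_comp]

theorem avc_conj (f : Ω → ℂ) : avc (fun x => (starRingEnd ℂ) (f x)) = (starRingEnd ℂ) (avc f) := by
  unfold avc
  rw [map_div₀, map_sum, Complex.conj_natCast]

/-- If a bijection multiplies `f` by a constant other than 1, its average vanishes. -/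
theorem avc_zero_of (e : Ω ≃ Ω) (f : Ω → ℂ) (c : ℂ) (hc : c ≠ 1) (h : ∀ x, f (e x) = c * f x) : avc f = 0 := by
  have h1 : avc f = c * avc f := by
    rw [← avc_mul, ← avc_comp e f]
    exact avc_congr h
  have h2 : (1 - c) * avc f = 0 := by rw [sub_mul, one_mul, ← h1, sub_self]
  rcases mul_eq_zero.1 h2 with h | h
  · exact absurd (sub_eq_zero.1 h).symm hc
  · exact h

end avc

section upd

variable {I κ : Type} [Fintype I] [DecidableEq I] [Fintype κ] [Nonempty κ]

/-- Resampling one coordinate does not change the average. -/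
theorem av_update (i : I) (f : (I → κ) → ℝ) :
    av (fun o : I → κ => av fun z : κ => f (Function.update o i z)) = av f := by
  classical
  have hcount : ∀ z : κ, ∑ o : I → κ, f (Function.update o i z) =
      Fintype.card κ * ∑ o ∈ Finset.univ.filter (fun o : I → κ => o i = z), f o := by
    intro z
    have h1 : ∀ o : I → κ, f (Function.update o i z) =
        ∑ o' ∈ Finset.univ.filter (fun o' : I → κ => o' i = z), if o' = Function.update o i z then f o' else 0 := by
      intro o
      rw [Finset.sum_ite_eq', if_pos]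
      simp
    rw [Finset.sum_congr rfl fun o _ => h1 o, Finset.sum_comm, Finset.mul_sum]
    refine Finset.sum_congr rfl fun o' ho' => ?_
    have ho : o' i = z := (Finset.mem_filter.1 ho').2
    rw [← Finset.sum_filter, Finset.sum_const, nsmul_eq_mul]
    congr 2
    rw [← Finset.card_univ]
    symm
    refine Finset.card_bij' (fun (y : κ) _ => Function.update o' i y) (fun o _ => o i) ?_ ?_ ?_ ?_
    · intro y _
      rw [Finset.mem_filter]
      refine ⟨Finset.mem_univ _, ?_⟩
      rw [Function.update_idem, ← ho, Function.update_eq_self]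
    · intro o _
      exact Finset.mem_univ _
    · intro y _
      simp
    · intro o ho2
      have h2 := (Finset.mem_filter.1 ho2).2
      rw [h2, Function.update_idem, Function.update_eq_self]
  unfold av
  rw [← Finset.sum_div, Finset.sum_comm, Finset.sum_congr rfl fun z _ => hcount z, ← Finset.mul_sum]
  have hs : ∑ z : κ, ∑ o ∈ Finset.univ.filter (fun o : I → κ => o i = z), f o = ∑ o, f o := by
    convert Finset.sum_fiberwise (s := (Finset.univ : Finset (I → κ))) (g := fun o : I → κ => o i) (f := f) using 1
  rw [hs]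
  have hk : (Fintype.card κ : ℝ) ≠ 0 := by
    have := Fintype.card_pos (α := κ)
    positivity
  field_simp

theorem avc_update (i : I) (f : (I → κ) → ℂ) :
    avc (fun o : I → κ => avc fun z : κ => f (Function.update o i z)) = avc f := by
  apply Complex.ext
  · rw [avc_re, avc_re]
    simp only [avc_re]
    exact av_update i fun o => (f o).re
  · rw [avc_im, avc_im]
    simp only [avc_im]
    exact av_update i fun o => (f o).im

/-- The second moment of a sum of independent centred bounded variables. -/
theorem av_sum_sq (a : κ → ℂ) (ha : avc a = 0) (hb : ∀ z, ‖a z‖ ≤ 1) :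
    av (fun o : I → κ => ‖∑ i, a (o i)‖ ^ 2) ≤ Fintype.card I := by
  have h1 : ∀ o : I → κ, ‖∑ i, a (o i)‖ ^ 2 = ∑ i, ∑ k, ((starRingEnd ℂ) (a (o i)) * a (o k)).re := by
    intro o
    have : ((‖∑ i, a (o i)‖ ^ 2 : ℝ) : ℂ) = ∑ i, ∑ k, (starRingEnd ℂ) (a (o i)) * a (o k) := by
      rw [Complex.ofReal_pow, ← Complex.conj_mul', map_sum, Finset.sum_mul_sum]
    have h2 := congrArg Complex.re this
    rw [Complex.ofReal_re, Complex.re_sum] at h2
    rw [h2]
    refine Finset.sum_congr rfl fun i _ => ?_
    rw [Complex.re_sum]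
  rw [av_congr h1, av_sum]
  have h2 : ∀ i : I, av (fun o : I → κ => ∑ k, ((starRingEnd ℂ) (a (o i)) * a (o k)).re) ≤ 1 := by
    intro i
    rw [av_sum, ← Finset.add_sum_erase _ _ (Finset.mem_univ i)]
    have h3 : ∀ k ∈ Finset.univ.erase i, av (fun o : I → κ => ((starRingEnd ℂ) (a (o i)) * a (o k)).re) = 0 := by
      intro k hk
      have hne : k ≠ i := Finset.ne_of_mem_erase hk
      rw [← avc_re, ← avc_update k]
      have h4 : ∀ o : I → κ, avc (fun z : κ => (starRingEnd ℂ) (a (Function.update o k z i)) * a (Function.update o k z k)) =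
          0 := by
        intro o
        simp only [Function.update_self, Function.update_of_ne (Ne.symm hne)]
        rw [avc_mul, ha, mul_zero]
      rw [avc_congr h4]
      simp [avc]
    rw [Finset.sum_eq_zero h3, add_zero]
    calc av (fun o : I → κ => ((starRingEnd ℂ) (a (o i)) * a (o i)).re) ≤ av (fun _ : I → κ => (1 : ℝ)) := by
          refine av_mono fun o => ?_
          rw [Complex.conj_mul', ← Complex.ofReal_pow, Complex.ofReal_re]
          exact pow_le_one₀ (norm_nonneg _) (hb _)
      _ = 1 := av_const 1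
  calc ∑ i : I, av (fun o : I → κ => ∑ k, ((starRingEnd ℂ) (a (o i)) * a (o k)).re) ≤ ∑ _i : I, (1 : ℝ) :=
        Finset.sum_le_sum fun i _ => h2 i
    _ = Fintype.card I := by simp

end upd

end ACpFrege
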