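import Pool.Agent.H88.AF.LayM

/-!
helper88 (project MP_28250c_FF): quadratic moments of a layer, empirical second moments, law of large numbers.
-/

set_option autoImplicit false
set_option linter.unusedSectionVars false

namespace ACpFrege

variable {M q : ℕ} [NeZero q]

theorem ip_mulVec_eq {ι : Type} [Fintype ι] (y x : ι → ℂ) (Z : Matrix ι ι ℂ) :
    ip y (Z.mulVec x) = ∑ p : ι × ι, ((starRingEnd ℂ) (y p.1) * x p.2) * Z p.1 p.2 := by
  rw [Fintype.sum_prod_type]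
  simp only [ip, Matrix.mulVec, dotProduct, Finset.mul_sum]
  refine Finset.sum_congr rfl fun u _ => Finset.sum_congr rfl fun v _ => ?_
  ring

theorem avc_ip_lay (y x : Fin M → ℂ) : avc (fun ζ : Fin M → Fin M → ZMod (2 * q) => ip y ((lay ζ).mulVec x)) = 0 := by
  simp only [ip_mulVec_eq]
  rw [avc_sum]
  refine Finset.sum_eq_zero fun p _ => ?_
  rw [avc_mul, lay_mean, mul_zero]

theorem prod_nsq {ι : Type} [Fintype ι] (y x : ι → ℂ) :
    ∑ p : ι × ι, ‖(starRingEnd ℂ) (y p.1) * x p.2‖ ^ 2 = nsq y * nsq x := by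
  rw [Fintype.sum_prod_type]
  unfold nsq
  rw [Finset.sum_mul_sum]
  refine Finset.sum_congr rfl fun u _ => Finset.sum_congr rfl fun v _ => ?_
  rw [norm_mul, RCLike.norm_conj, mul_pow]

theorem sq_expand {α : Type} [Fintype α] (c z : α → ℂ) :
    ((‖∑ p, c p * z p‖ ^ 2 : ℝ) : ℂ) =
      ∑ p, ∑ p', ((starRingEnd ℂ) (c p) * c p') * ((starRingEnd ℂ) (z p) * z p') := by
  rw [Complex.ofReal_pow, ← Complex.conj_mul', map_sum, Finset.sum_mul_sum]
  refine Finset.sum_congr rfl fun p _ => Finset.sum_congr rfl fun p' _ => ?_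
  rw [map_mul]
  ring

/-- The second moment of the form of a layer. -/
theorem av_ip_lay_sq (hq : 2 ≤ q) (y x : Fin M → ℂ) :
    av (fun ζ : Fin M → Fin M → ZMod (2 * q) => ‖ip y ((lay ζ).mulVec x)‖ ^ 2) = nsq y * nsq x := by
  have h1 : ((av (fun ζ : Fin M → Fin M → ZMod (2 * q) => ‖ip y ((lay ζ).mulVec x)‖ ^ 2) : ℝ) : ℂ) =
      ((nsq y * nsq x : ℝ) : ℂ) := by
    rw [← avc_ofReal]
    simp only [ip_mulVec_eq]
    rw [avc_congr fun ζ => sq_expand (fun p : Fin M × Fin M => (starRingEnd ℂ) (y p.1) * x p.2) (fun p => lay ζ p.1 p.2),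
      avc_sum]
    have h2 : ∀ p : Fin M × Fin M, avc (fun ζ : Fin M → Fin M → ZMod (2 * q) => ∑ p' : Fin M × Fin M,
        ((starRingEnd ℂ) ((starRingEnd ℂ) (y p.1) * x p.2) * ((starRingEnd ℂ) (y p'.1) * x p'.2)) *
          ((starRingEnd ℂ) (lay ζ p.1 p.2) * lay ζ p'.1 p'.2)) = ((‖(starRingEnd ℂ) (y p.1) * x p.2‖ ^ 2 : ℝ) : ℂ) := by
      intro p
      rw [avc_sum, Finset.sum_eq_single p]
      · rw [avc_mul, lay_cov hq, if_pos ⟨rfl, rfl⟩, mul_one, Complex.conj_mul', Complex.ofReal_pow]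
      · intro p' _ hne
        rw [avc_mul, lay_cov hq, if_neg, mul_zero]
        rintro ⟨h3, h4⟩
        exact hne (Prod.ext h3 h4)
      · intro h
        exact absurd (Finset.mem_univ p) h
    rw [Finset.sum_congr rfl fun p _ => h2 p, ← Complex.ofReal_sum, prod_nsq]
  exact_mod_cast h1

theorem av_ip_lay_sub_sq (hq : 2 ≤ q) (y x : Fin M → ℂ) (c : ℂ) :
    av (fun ζ : Fin M → Fin M → ZMod (2 * q) => ‖ip y ((lay ζ).mulVec x) - c‖ ^ 2) = nsq y * nsq x + ‖c‖ ^ 2 := by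
  have h1 : ∀ ζ : Fin M → Fin M → ZMod (2 * q), ‖ip y ((lay ζ).mulVec x) - c‖ ^ 2 =
      (‖ip y ((lay ζ).mulVec x)‖ ^ 2 - 2 * (ip y ((lay ζ).mulVec x) * (starRingEnd ℂ) c).re) + ‖c‖ ^ 2 := by
    intro ζ
    rw [← Complex.normSq_eq_norm_sq, Complex.normSq_sub, Complex.normSq_eq_norm_sq, Complex.normSq_eq_norm_sq]
    ring
  rw [av_congr h1, av_add, av_sub, av_mul, av_ip_lay_sq hq, ← avc_re, avc_mul_right, avc_ip_lay, av_const]
  simp

/-- Empirical covariances of the layers. -/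
noncomputable def ecov {b : ℕ} (o : Om b M q) (p p' : Fin M × Fin M) : ℂ :=
  ∑ i, (starRingEnd ℂ) (lay (o i) p.1 p.2) * lay (o i) p'.1 p'.2

/-- The empirical covariances are close to the true ones. -/
def Emp {b : ℕ} (s : ℝ) (o : Om b M q) : Prop := ∀ p p' : Fin M × Fin M, p' ≠ p → ‖ecov o p p'‖ ≤ s * b

theorem sum_norm_sq_le {ι : Type} [Fintype ι] (x : ι → ℂ) : (∑ u, ‖x u‖) ^ 2 ≤ Fintype.card ι * nsq x := by
  have := Finset.sum_mul_sq_le_sq_mul_sq (Finset.univ : Finset ι) (fun _ => (1 : ℝ)) (fun u => ‖x u‖)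
  unfold nsq
  simpa using this

theorem emp_sum {b : ℕ} (o : Om b M q) (y x : Fin M → ℂ) (hy : nsq y = 1) (hx : nsq x = 1) {s : ℝ} (hs : 0 ≤ s)
    (ho : Emp s o) :
    (1 - s * M ^ 2) * b ≤ ∑ i, ‖ip y ((lay (o i)).mulVec x)‖ ^ 2 := by
  set c : Fin M × Fin M → ℂ := fun p => (starRingEnd ℂ) (y p.1) * x p.2 with hc
  have h1 : ((∑ i, ‖ip y ((lay (o i)).mulVec x)‖ ^ 2 : ℝ) : ℂ) =
      ∑ p, ∑ p', ((starRingEnd ℂ) (c p) * c p') * ecov o p p' := by
    rw [Complex.ofReal_sum]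
    simp only [ip_mulVec_eq, sq_expand]
    rw [Finset.sum_comm]
    refine Finset.sum_congr rfl fun p _ => ?_
    rw [Finset.sum_comm]
    refine Finset.sum_congr rfl fun p' _ => ?_
    unfold ecov
    rw [Finset.mul_sum]
  have h2 : ∀ p, ecov o p p = b := by
    intro p
    unfold ecov
    have : ∀ i, (starRingEnd ℂ) (lay (o i) p.1 p.2) * lay (o i) p.1 p.2 = 1 := by
      intro i
      rw [Complex.conj_mul', lay_norm]
      norm_num
    rw [Finset.sum_congr rfl fun i _ => this i]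
    simp
  have h3 : ∀ p, (((starRingEnd ℂ) (c p) * c p) * ecov o p p).re = ‖c p‖ ^ 2 * b := by
    intro p
    rw [h2, Complex.conj_mul', ← Complex.ofReal_pow, ← Complex.ofReal_natCast, ← Complex.ofReal_mul, Complex.ofReal_re]
  have h4 : ∀ p, ‖c p‖ ^ 2 * b - s * b * (‖c p‖ * ∑ p', ‖c p'‖) ≤
      (∑ p', ((starRingEnd ℂ) (c p) * c p') * ecov o p p').re := by
    intro p
    rw [← Finset.add_sum_erase Finset.univ (fun p' => ((starRingEnd ℂ) (c p) * c p') * ecov o p p') (Finset.mem_univ p),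
      Complex.add_re, h3]
    have h5 : ‖∑ p' ∈ Finset.univ.erase p, ((starRingEnd ℂ) (c p) * c p') * ecov o p p'‖ ≤
        s * b * (‖c p‖ * ∑ p', ‖c p'‖) := by
      calc _ ≤ ∑ p' ∈ Finset.univ.erase p, ‖((starRingEnd ℂ) (c p) * c p') * ecov o p p'‖ := norm_sum_le _ _
        _ ≤ ∑ p' ∈ Finset.univ.erase p, s * b * (‖c p‖ * ‖c p'‖) := by
            refine Finset.sum_le_sum fun p' hp' => ?_
            rw [norm_mul, norm_mul, RCLike.norm_conj, mul_comm]
            exact mul_le_mul_of_nonneg_right (ho p p' (Finset.ne_of_mem_erase hp')) (by positivity)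
        _ ≤ ∑ p', s * b * (‖c p‖ * ‖c p'‖) :=
            Finset.sum_le_sum_of_subset_of_nonneg (Finset.subset_univ _) fun _ _ _ => by positivity
        _ = _ := by rw [← Finset.mul_sum, ← Finset.mul_sum]
    have h6 := (abs_le.1 ((Complex.abs_re_le_norm _).trans h5)).1
    linarith
  have h7 : (∑ p, ‖c p‖) ^ 2 ≤ M ^ 2 := by
    have h8 := sum_norm_sq_le c
    have h9 : nsq c = 1 := by
      have h10 := prod_nsq y x
      rw [hy, hx, mul_one] at h10
      exact h10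
    rw [h9, mul_one, Fintype.card_prod, Fintype.card_fin] at h8
    push_cast at h8
    calc _ ≤ _ := h8
      _ = (M : ℝ) ^ 2 := by ring
  have h11 : ∑ i, ‖ip y ((lay (o i)).mulVec x)‖ ^ 2 =
      ∑ p, (∑ p', ((starRingEnd ℂ) (c p) * c p') * ecov o p p').re := by
    rw [← Complex.re_sum, ← h1, Complex.ofReal_re]
  rw [h11]
  have h12 : ∑ p, ‖c p‖ ^ 2 = 1 := by
    have h10 := prod_nsq y x
    rw [hy, hx, mul_one] at h10
    exact h10
  calc (1 - s * M ^ 2) * b = 1 * b - s * b * M ^ 2 := by ring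
    _ ≤ 1 * b - s * b * (∑ p, ‖c p‖) ^ 2 := by
        have : s * b * (∑ p, ‖c p‖) ^ 2 ≤ s * b * M ^ 2 := mul_le_mul_of_nonneg_left h7 (by positivity)
        linarith
    _ = ∑ p, (‖c p‖ ^ 2 * b - s * b * (‖c p‖ * ∑ p', ‖c p'‖)) := by
        rw [Finset.sum_sub_distrib, ← Finset.sum_mul, h12, ← Finset.mul_sum, ← Finset.sum_mul, sq]
    _ ≤ _ := Finset.sum_le_sum fun p _ => h4 p

/-- Law of large numbers. -/
theorem pr_not_emp (hq : 2 ≤ q) {b : ℕ} (hb : 1 ≤ b) {s : ℝ} (hs : 0 < s) :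
    pr (fun o : Om b M q => ¬ Emp s o) ≤ M ^ 4 / (b * s ^ 2) := by
  classical
  have hb' : (0 : ℝ) < b := by exact_mod_cast hb
  set S : Finset ((Fin M × Fin M) × (Fin M × Fin M)) := Finset.univ.filter fun t => t.2 ≠ t.1 with hS
  have h1 : pr (fun o : Om b M q => ¬ Emp s o) ≤
      pr (fun o : Om b M q => ∃ t ∈ S, (s * b) ^ 2 ≤ ‖ecov o t.1 t.2‖ ^ 2) := by
    refine pr_mono fun o ho => ?_
    unfold Emp at ho
    push Not at ho
    obtain ⟨p, p', hne, hlt⟩ := ho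
    refine ⟨(p, p'), ?_, ?_⟩
    · rw [hS, Finset.mem_filter]
      exact ⟨Finset.mem_univ _, hne⟩
    · exact pow_le_pow_left₀ (by positivity) hlt.le 2
  refine h1.trans ((pr_exists S _).trans ?_)
  have h2 : ∀ t ∈ S, pr (fun o : Om b M q => (s * b) ^ 2 ≤ ‖ecov o t.1 t.2‖ ^ 2) ≤ 1 / (b * s ^ 2) := by
    intro t ht
    have hne : t.2 ≠ t.1 := (Finset.mem_filter.1 ht).2
    refine (markov (fun o => by positivity) (by positivity)).trans ?_
    have h3 := av_sum_sq (I := Fin b) (κ := Fin M → Fin M → ZMod (2 * q))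
      (fun ζ => (starRingEnd ℂ) (lay ζ t.1.1 t.1.2) * lay ζ t.2.1 t.2.2) (by
        rw [lay_cov hq, if_neg]
        rintro ⟨h4, h5⟩
        exact hne (Prod.ext h4 h5)) (fun ζ => by
        rw [norm_mul, RCLike.norm_conj, lay_norm, lay_norm, mul_one])
    rw [Fintype.card_fin] at h3
    calc av (fun o : Om b M q => ‖ecov o t.1 t.2‖ ^ 2) / (s * b) ^ 2 ≤ b / (s * b) ^ 2 := by
          gcongr
          exact h3
      _ = 1 / (b * s ^ 2) := by
          field_simp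
  refine (Finset.sum_le_sum h2).trans ?_
  rw [Finset.sum_const, nsmul_eq_mul]
  have h4 : (S.card : ℝ) ≤ M ^ 4 := by
    have h5 : S.card ≤ M ^ 4 := by
      refine (Finset.card_filter_le _ _).trans ?_
      rw [Finset.card_univ, Fintype.card_prod, Fintype.card_prod, Fintype.card_fin]
      apply le_of_eq
      ring
    exact_mod_cast h5
  calc (S.card : ℝ) * (1 / (b * s ^ 2)) ≤ M ^ 4 * (1 / (b * s ^ 2)) := by gcongr
    _ = _ := by ring

end ACpFrege
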