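import Pool.Agent.H88.AF.Spec

/-!
helper88 (project MP_28250c_FF): second order perturbation inequality for the largest eigenvalue.
-/

set_option autoImplicit false

namespace ACpFrege

variable {ι : Type} [Fintype ι] [DecidableEq ι]

/-- If `|P| ≤ p0` then `lam (H + P) 0 ≥ lam H 0 + ⟨ξ, P ξ⟩ + ∑_(j ≥ 1) |⟨ξ_j, P ξ⟩|² / (lam H 0 - lam H j + 3 p0)`, `ξ = ξ_0`. -/
theorem pert_lower {H P : Matrix ι ι ℂ} (hH : H.IsHermitian) (hP : P.IsHermitian) (hc : 0 < Fintype.card ι)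
    {p0 : ℝ} (h0 : 0 < p0) (hp : ∀ z : ι → ℂ, nsq (P.mulVec z) ≤ p0 ^ 2 * nsq z) :
    lam H 0 + (ip (xi H 0) (P.mulVec (xi H 0))).re +
      ∑ j ∈ Finset.Ico 1 (Fintype.card ι), ‖ip (xi H j) (P.mulVec (xi H 0))‖ ^ 2 / (lam H 0 - lam H j + 3 * p0) ≤
      lam (H + P) 0 := by
  set n := Fintype.card ι with hn
  set x := xi H 0 with hx
  set a : ℕ → ℂ := fun j => ip (xi H j) (P.mulVec x) with ha
  set D : ℕ → ℝ := fun j => lam H 0 - lam H j + 3 * p0 with hD
  set Q : ℝ := ∑ j ∈ Finset.Ico 1 n, ‖a j‖ ^ 2 / D j with hQ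
  set c : ℕ → ℂ := fun j => a j / D j with hc'
  set w : ι → ℂ := ∑ j ∈ Finset.Ico 1 n, c j • xi H j with hw
  have hmem : ∀ j ∈ Finset.Ico 1 n, j < n := fun j hj => (Finset.mem_Ico.1 hj).2
  have hDpos : ∀ j ∈ Finset.Ico 1 n, 3 * p0 ≤ D j := by
    intro j hj
    have := lam_anti hH (Nat.zero_le j) (hmem j hj)
    simp only [hD]
    linarith
  have hDpos' : ∀ j ∈ Finset.Ico 1 n, 0 < D j := fun j hj => lt_of_lt_of_le (by linarith) (hDpos j hj)
  have hx1 : nsq x = 1 := xi_nsq hH hc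
  -- norm of `P x`
  have hPx : nsq (P.mulVec x) ≤ p0 ^ 2 := by
    have := hp x
    rwa [hx1, mul_one] at this
  have hip : ∀ y z : ι → ℂ, ‖ip y (P.mulVec z)‖ ^ 2 ≤ nsq y * (p0 ^ 2 * nsq z) := fun y z =>
    (ip_cs _ _).trans (mul_le_mul_of_nonneg_left (hp z) (nsq_nonneg y))
  have hquad : ∀ y : ι → ℂ, |(ip y (P.mulVec y)).re| ≤ p0 * nsq y := by
    intro y
    have h1 : ‖ip y (P.mulVec y)‖ ^ 2 ≤ (p0 * nsq y) ^ 2 := by
      have := hip y y
      nlinarith
    have h2 : ‖ip y (P.mulVec y)‖ ≤ p0 * nsq y :=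
      le_of_sq_le_sq h1 (mul_nonneg h0.le (nsq_nonneg y))
    exact (Complex.abs_re_le_norm _).trans h2
  -- norm of `w`
  have hwx : ip x w = 0 := by
    rw [hw, ip_sum_right]
    refine Finset.sum_eq_zero fun j hj => ?_
    rw [ip_smul_right, hx, xi_on hH hc (hmem j hj), if_neg, mul_zero]
    have := (Finset.mem_Ico.1 hj).1
    omega
  have hiw : ∀ j ∈ Finset.Ico 1 n, ip (xi H j) w = c j := by
    intro j hj
    rw [hw, ip_sum_right, Finset.sum_eq_single j]
    · rw [ip_smul_right, xi_on hH (hmem j hj) (hmem j hj), if_pos rfl, mul_one]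
    · intro i hi hij
      rw [ip_smul_right, xi_on hH (hmem j hj) (hmem i hi), if_neg (Ne.symm hij), mul_zero]
    · intro h
      exact absurd hj h
  have hnw : nsq w = ∑ j ∈ Finset.Ico 1 n, ‖c j‖ ^ 2 := by
    rw [nsq_eq_re]
    conv_lhs => rw [hw]
    rw [ip_sum_left, Complex.re_sum]
    refine Finset.sum_congr rfl fun j hj => ?_
    rw [ip_smul_left, hiw j hj, Complex.conj_mul', ← Complex.ofReal_pow, Complex.ofReal_re]
  have hHw : (ip w (H.mulVec w)).re = ∑ j ∈ Finset.Ico 1 n, lam H j * ‖c j‖ ^ 2 := by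
    conv_lhs => rw [hw]
    rw [ip_sum_left, Complex.re_sum]
    refine Finset.sum_congr rfl fun j hj => ?_
    rw [ip_smul_left, ← hw, ip_xi_mulVec hH (hmem j hj), hiw j hj, mul_left_comm, Complex.conj_mul',
      ← Complex.ofReal_pow, ← Complex.ofReal_mul, Complex.ofReal_re]
  have hcn : ∀ j ∈ Finset.Ico 1 n, ‖c j‖ ^ 2 * D j = ‖a j‖ ^ 2 / D j := by
    intro j hj
    have h1 := hDpos' j hj
    simp only [hc', norm_div, Complex.norm_real, Real.norm_eq_abs, abs_of_pos h1, div_pow]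
    field_simp
  have hsum : ∑ j ∈ Finset.Ico 1 n, lam H j * ‖c j‖ ^ 2 = lam H 0 * nsq w + 3 * p0 * nsq w - Q := by
    rw [hQ, hnw, Finset.mul_sum, Finset.mul_sum, ← Finset.sum_add_distrib, ← Finset.sum_sub_distrib]
    refine Finset.sum_congr rfl fun j hj => ?_
    rw [← hcn j hj]
    simp only [hD]
    ring
  have hPw : ip w (P.mulVec x) = (Q : ℂ) := by
    conv_lhs => rw [hw]
    rw [ip_sum_left, hQ]
    push_cast
    refine Finset.sum_congr rfl fun j hj => ?_
    rw [ip_smul_left]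
    have h1 := hDpos' j hj
    have h2 : ((D j : ℝ) : ℂ) ≠ 0 := by exact_mod_cast h1.ne'
    simp only [hc', map_div₀, Complex.conj_ofReal]
    rw [div_mul_eq_mul_div, Complex.conj_mul']
  have hQ0 : 0 ≤ Q := Finset.sum_nonneg fun j hj => div_nonneg (by positivity) (hDpos' j hj).le
  have hQ1 : Q ≤ p0 / 3 := by
    have h1 : Q ≤ ∑ j ∈ Finset.Ico 1 n, ‖a j‖ ^ 2 / (3 * p0) := by
      refine Finset.sum_le_sum fun j hj => ?_
      exact div_le_div_of_nonneg_left (by positivity) (by positivity) (hDpos j hj)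
    have h2 : ∑ j ∈ Finset.Ico 1 n, ‖a j‖ ^ 2 ≤ p0 ^ 2 := by
      refine le_trans ?_ hPx
      rw [nsq_expand hH (P.mulVec x)]
      refine Finset.sum_le_sum_of_subset_of_nonneg ?_ fun _ _ _ => by positivity
      intro j hj
      exact Finset.mem_range.2 (hmem j hj)
    rw [← Finset.sum_div] at h1
    calc Q ≤ _ := h1
      _ ≤ p0 ^ 2 / (3 * p0) := by gcongr
      _ = p0 / 3 := by field_simp
  -- the trial vector
  have hHx : H.mulVec x = (lam H 0 : ℂ) • x := xi_eig hH hc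
  have hv : nsq (x + w) = 1 + nsq w := by
    rw [nsq_add, hx1, hwx, Complex.zero_re]
    ring
  have hvne : x + w ≠ 0 := by
    intro h
    have h1 := hv
    rw [h, nsq_zero] at h1
    have := nsq_nonneg w
    linarith
  have hsumH : (H + P).IsHermitian := hH.add hP
  refine le_lam_of hsumH hvne ?_
  have hxHw : (ip x (H.mulVec w)).re = 0 := by
    rw [ip_herm hH, hHx, ip_smul_left, hwx, mul_zero, Complex.zero_re]
  have hwHx : (ip w (H.mulVec x)).re = 0 := by
    rw [ip_herm hH, ip_re_comm, hxHw]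
  have hxHx : (ip x (H.mulVec x)).re = lam H 0 := by
    rw [hHx, ip_smul_right, ip_self, hx1, ← Complex.ofReal_mul, Complex.ofReal_re, mul_one]
  have hxPw : (ip x (P.mulVec w)).re = Q := by
    rw [ip_herm hP, ip_re_comm, hPw, Complex.ofReal_re]
  have hwPx : (ip w (P.mulVec x)).re = Q := by rw [hPw, Complex.ofReal_re]
  have hform : (ip (x + w) ((H + P).mulVec (x + w))).re =
      lam H 0 + (lam H 0 * nsq w + 3 * p0 * nsq w - Q) + (ip x (P.mulVec x)).re + 2 * Q + (ip w (P.mulVec w)).re := by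
    rw [Matrix.add_mulVec, Matrix.mulVec_add, Matrix.mulVec_add]
    simp only [ip_add_left, ip_add_right, Complex.add_re]
    rw [hxHx, hxHw, hwHx, hHw, hsum, hxPw, hwPx]
    ring
  rw [hform, hv]
  have h1 := (abs_le.1 (hquad x)).2
  have h2 := (abs_le.1 (hquad w)).1
  rw [hx1, mul_one] at h1
  have h3 := nsq_nonneg w
  have h4 : nsq w * ((ip x (P.mulVec x)).re + Q) ≤ nsq w * (p0 + p0 / 3) :=
    mul_le_mul_of_nonneg_left (by linarith) h3
  nlinarith [mul_nonneg h0.le h3]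

end ACpFrege
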