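import Pool.Agent.H88.AF.LayQ
import Pool.Agent.H88.AF.Pert

/-!
helper88 (project MP_28250c_FF): the virial inequality (C3).
-/

set_option autoImplicit false
set_option linter.unusedSectionVars false

namespace ACpFrege

variable {M q : ℕ} [NeZero q]

/-- The spectral sum above the spectrum. -/
noncomputable def XM {M : ℕ} (b : ℕ) (H : Matrix (Fin M) (Fin M) ℂ) : ℝ :=
  ∑ j ∈ Finset.Ico 1 M, 1 / (lam H 0 - lam H j + 3 * (2 * M / Real.sqrt b))

/-- The change of the matrix when layer `i` is replaced by `ζ`. -/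
noncomputable def PL {b : ℕ} (o : Om b M q) (i : Fin b) (ζ : Fin M → Fin M → ZMod (2 * q)) : Matrix (Fin M) (Fin M) ℂ :=
  ((Real.sqrt b)⁻¹ : ℂ) • (lay ζ - lay (o i))

theorem HH_update {b : ℕ} (o : Om b M q) (i : Fin b) (ζ : Fin M → Fin M → ZMod (2 * q)) :
    HH (Function.update o i ζ) = HH o + PL o i ζ := by
  ext u v
  unfold PL HH
  rw [Matrix.add_apply, Matrix.smul_apply, Matrix.sub_apply, smul_eq_mul, ← mul_add]
  congr 1
  rw [← Finset.add_sum_erase Finset.univ (fun i' => lay (Function.update o i ζ i') u v) (Finset.mem_univ i),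
    ← Finset.add_sum_erase Finset.univ (fun i' => lay (o i') u v) (Finset.mem_univ i), Function.update_self]
  have h : ∑ i' ∈ Finset.univ.erase i, lay (Function.update o i ζ i') u v = ∑ i' ∈ Finset.univ.erase i, lay (o i') u v :=
    Finset.sum_congr rfl fun i' hi' => by rw [Function.update_of_ne (Finset.ne_of_mem_erase hi')]
  rw [h]
  ring

theorem HH_mulVec {b : ℕ} (o : Om b M q) (x : Fin M → ℂ) :
    (HH o).mulVec x = ((Real.sqrt b)⁻¹ : ℂ) • ∑ i, (lay (o i)).mulVec x := by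
  funext u
  simp only [Matrix.mulVec, dotProduct, HH, Pi.smul_apply, Finset.sum_apply, smul_eq_mul]
  rw [Finset.sum_comm, Finset.mul_sum]
  refine Finset.sum_congr rfl fun v _ => ?_
  rw [mul_assoc, Finset.sum_mul]

theorem PL_herm {b : ℕ} (o : Om b M q) (i : Fin b) (ζ : Fin M → Fin M → ZMod (2 * q)) : (PL o i ζ).IsHermitian := by
  unfold PL
  have h := (lay_herm ζ).sub (lay_herm (o i))
  apply Matrix.IsHermitian.ext
  intro u v
  rw [Matrix.smul_apply, Matrix.smul_apply, star_smul, h.apply]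
  simp [Complex.conj_ofReal]

theorem PL_ip {b : ℕ} (o : Om b M q) (i : Fin b) (ζ : Fin M → Fin M → ZMod (2 * q)) (y x : Fin M → ℂ) :
    ip y ((PL o i ζ).mulVec x) = ((Real.sqrt b)⁻¹ : ℂ) * (ip y ((lay ζ).mulVec x) - ip y ((lay (o i)).mulVec x)) := by
  unfold PL
  rw [Matrix.smul_mulVec, Matrix.sub_mulVec, ip_smul_right, ip_sub_right]

theorem nsq_lay (ζ : Fin M → Fin M → ZMod (2 * q)) (z : Fin M → ℂ) : nsq ((lay ζ).mulVec z) ≤ M ^ 2 * nsq z := by
  unfold nsq
  have h1 : ∀ u, ‖(lay ζ).mulVec z u‖ ^ 2 ≤ M * ∑ v, ‖z v‖ ^ 2 := by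
    intro u
    have h2 : ‖(lay ζ).mulVec z u‖ ≤ ∑ v, ‖z v‖ := by
      simp only [Matrix.mulVec, dotProduct]
      refine (norm_sum_le _ _).trans (le_of_eq (Finset.sum_congr rfl fun v _ => ?_))
      rw [norm_mul, lay_norm, one_mul]
    have h3 := sum_norm_sq_le z
    rw [Fintype.card_fin] at h3
    calc ‖(lay ζ).mulVec z u‖ ^ 2 ≤ (∑ v, ‖z v‖) ^ 2 := pow_le_pow_left₀ (norm_nonneg _) h2 2
      _ ≤ _ := h3
  calc ∑ u, ‖(lay ζ).mulVec z u‖ ^ 2 ≤ ∑ _u : Fin M, (M : ℝ) * ∑ v, ‖z v‖ ^ 2 := Finset.sum_le_sum fun u _ => h1 u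
    _ = _ := by
      rw [Finset.sum_const, Finset.card_univ, Fintype.card_fin, nsmul_eq_mul]
      ring

theorem nsq_sub_le {ι : Type} [Fintype ι] (x y : ι → ℂ) : nsq (x - y) ≤ 2 * nsq x + 2 * nsq y := by
  have h1 := nsq_nonneg (x + y)
  rw [nsq_add] at h1
  rw [nsq_sub]
  linarith

theorem PL_nsq {b : ℕ} (hb : 1 ≤ b) (o : Om b M q) (i : Fin b) (ζ : Fin M → Fin M → ZMod (2 * q)) (z : Fin M → ℂ) :
    nsq ((PL o i ζ).mulVec z) ≤ (2 * M / Real.sqrt b) ^ 2 * nsq z := by
  have hb' : (0 : ℝ) < b := by exact_mod_cast hb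
  unfold PL
  rw [Matrix.smul_mulVec, Matrix.sub_mulVec, nsq_smul]
  have h1 := nsq_sub_le ((lay ζ).mulVec z) ((lay (o i)).mulVec z)
  have h2 := nsq_lay ζ z
  have h3 := nsq_lay (o i) z
  have h4 : ‖((Real.sqrt b)⁻¹ : ℂ)‖ ^ 2 = 1 / b := by
    rw [norm_inv, Complex.norm_real, Real.norm_eq_abs, abs_of_nonneg (Real.sqrt_nonneg _), inv_pow, Real.sq_sqrt hb'.le, one_div]
  rw [h4, div_pow, Real.sq_sqrt hb'.le]
  calc 1 / (b : ℝ) * nsq ((lay ζ).mulVec z - (lay (o i)).mulVec z) ≤ 1 / (b : ℝ) * (4 * (M ^ 2 * nsq z)) := by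
        apply mul_le_mul_of_nonneg_left _ (by positivity)
        linarith
    _ = (2 * M) ^ 2 / b * nsq z := by ring

open Classical in
/-- The virial inequality. -/
theorem virial (hq : 2 ≤ q) (hM : 1 ≤ M) {b : ℕ} (hb : 1 ≤ b) {σ : ℝ} (hσ : 0 < σ) (hσ1 : σ ≤ 1) :
    (2 - σ) * av (fun o : Om b M q => XM b (HH o)) ≤
      av (fun o : Om b M q => lam (HH o) 0) + M ^ 8 / (6 * Real.sqrt b * σ ^ 2) := by
  have hb' : (0 : ℝ) < b := by exact_mod_cast hb
  have hM' : (0 : ℝ) < M := by exact_mod_cast hM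
  have hsb : 0 < Real.sqrt b := Real.sqrt_pos.2 hb'
  have hcard : Fintype.card (Fin M) = M := Fintype.card_fin M
  have hc0 : 0 < Fintype.card (Fin M) := by rw [hcard]; omega
  set p0 : ℝ := 2 * M / Real.sqrt b with hp0
  have hp0pos : 0 < p0 := by positivity
  set s : ℝ := σ / M ^ 2 with hs
  have hspos : 0 < s := by positivity
  have hsM : s * M ^ 2 = σ := by
    rw [hs]
    field_simp
  -- the pointwise inequality for one replaced layer
  have hpt : ∀ (o : Om b M q) (i : Fin b) (ζ : Fin M → Fin M → ZMod (2 * q)),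
      (ip (xi (HH o) 0) ((PL o i ζ).mulVec (xi (HH o) 0))).re +
        ∑ j ∈ Finset.Ico 1 M, ‖ip (xi (HH o) j) ((PL o i ζ).mulVec (xi (HH o) 0))‖ ^ 2 * (1 / (lam (HH o) 0 - lam (HH o) j + 3 * p0)) ≤
        lam (HH (Function.update o i ζ)) 0 - lam (HH o) 0 := by
    intro o i ζ
    have h := pert_lower (HH_herm o) (PL_herm o i ζ) hc0 hp0pos (PL_nsq hb o i ζ)
    rw [← HH_update, hcard] at h
    have h2 : ∀ j ∈ Finset.Ico 1 M, ‖ip (xi (HH o) j) ((PL o i ζ).mulVec (xi (HH o) 0))‖ ^ 2 *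
        (1 / (lam (HH o) 0 - lam (HH o) j + 3 * p0)) =
        ‖ip (xi (HH o) j) ((PL o i ζ).mulVec (xi (HH o) 0))‖ ^ 2 / (lam (HH o) 0 - lam (HH o) j + 3 * p0) := fun j _ => by ring
    rw [Finset.sum_congr rfl h2]
    linarith
  -- the averages over `ζ`, summed over `i`
  have hx1 : ∀ o : Om b M q, nsq (xi (HH o) 0) = 1 := fun o => xi_nsq (HH_herm o) hc0
  have hxj : ∀ (o : Om b M q), ∀ j ∈ Finset.Ico 1 M, nsq (xi (HH o) j) = 1 := fun o j hj =>
    xi_nsq (HH_herm o) (by rw [hcard]; exact (Finset.mem_Ico.1 hj).2)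
  have hD : ∀ (o : Om b M q), ∀ j ∈ Finset.Ico 1 M, 3 * p0 ≤ lam (HH o) 0 - lam (HH o) j + 3 * p0 := by
    intro o j hj
    have := lam_anti (HH_herm o) (Nat.zero_le j) (by rw [hcard]; exact (Finset.mem_Ico.1 hj).2)
    linarith
  have hsq1 : ‖((Real.sqrt b)⁻¹ : ℂ)‖ ^ 2 = 1 / b := by
    rw [norm_inv, Complex.norm_real, Real.norm_eq_abs, abs_of_nonneg hsb.le, inv_pow, Real.sq_sqrt hb'.le, one_div]
  have hmean : ∀ o : Om b M q, ∑ i, av (fun ζ : Fin M → Fin M → ZMod (2 * q) =>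
      (ip (xi (HH o) 0) ((PL o i ζ).mulVec (xi (HH o) 0))).re) = - lam (HH o) 0 := by
    intro o
    set x := xi (HH o) 0 with hx
    have h1 : ∀ i, av (fun ζ : Fin M → Fin M → ZMod (2 * q) => (ip x ((PL o i ζ).mulVec x)).re) =
        (-(((Real.sqrt b)⁻¹ : ℂ) * ip x ((lay (o i)).mulVec x))).re := by
      intro i
      rw [← avc_re]
      simp only [PL_ip]
      rw [avc_mul, avc_sub, avc_ip_lay, avc_const]
      ring_nf
    rw [Finset.sum_congr rfl fun i _ => h1 i, ← Complex.re_sum, Finset.sum_neg_distrib, ← Finset.mul_sum, ← ip_sum_right,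
      ← ip_smul_right, ← HH_mulVec, Complex.neg_re, hx, xi_eig (HH_herm o) hc0, ip_smul_right, ip_self,
      xi_nsq (HH_herm o) hc0, ← Complex.ofReal_mul, Complex.ofReal_re, mul_one]
  have hsec : ∀ (o : Om b M q) (y x : Fin M → ℂ), nsq y = 1 → nsq x = 1 →
      ∑ i, av (fun ζ : Fin M → Fin M → ZMod (2 * q) => ‖ip y ((PL o i ζ).mulVec x)‖ ^ 2) =
        1 + 1 / b * ∑ i, ‖ip y ((lay (o i)).mulVec x)‖ ^ 2 := by
    intro o y x hy hx
    have h1 : ∀ i, av (fun ζ : Fin M → Fin M → ZMod (2 * q) => ‖ip y ((PL o i ζ).mulVec x)‖ ^ 2) =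
        1 / b * (1 + ‖ip y ((lay (o i)).mulVec x)‖ ^ 2) := by
      intro i
      simp only [PL_ip, norm_mul, mul_pow, hsq1]
      rw [av_mul, av_ip_lay_sub_sq hq, hy, hx, mul_one]
    rw [Finset.sum_congr rfl fun i _ => h1 i, ← Finset.mul_sum, Finset.sum_add_distrib, mul_add]
    congr 1
    rw [Finset.sum_const, Finset.card_univ, Fintype.card_fin, nsmul_eq_mul, mul_one]
    field_simp
  -- the coefficient
  set c : Om b M q → ℝ := fun o => if Emp s o then 2 - σ else 1 with hc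
  have hcoef : ∀ (o : Om b M q) (y x : Fin M → ℂ), nsq y = 1 → nsq x = 1 →
      c o ≤ ∑ i, av (fun ζ : Fin M → Fin M → ZMod (2 * q) => ‖ip y ((PL o i ζ).mulVec x)‖ ^ 2) := by
    intro o y x hy hx
    rw [hsec o y x hy hx]
    simp only [hc]
    split_ifs with h
    · have h1 := emp_sum o y x hy hx hspos.le h
      rw [hsM] at h1
      have h2 : 1 - σ ≤ 1 / b * ∑ i, ‖ip y ((lay (o i)).mulVec x)‖ ^ 2 := by
        rw [one_div, inv_mul_eq_div, le_div_iff₀ hb']
        exact h1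
      linarith
    · have h2 : 0 ≤ 1 / (b : ℝ) * ∑ i, ‖ip y ((lay (o i)).mulVec x)‖ ^ 2 := by positivity
      linarith
  -- the total
  have hzero : ∑ i : Fin b, av (fun o : Om b M q => av fun ζ : Fin M → Fin M → ZMod (2 * q) =>
      lam (HH (Function.update o i ζ)) 0 - lam (HH o) 0) = 0 := by
    refine Finset.sum_eq_zero fun i _ => ?_
    have h1 : ∀ o : Om b M q, (av fun ζ : Fin M → Fin M → ZMod (2 * q) =>
        lam (HH (Function.update o i ζ)) 0 - lam (HH o) 0) =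
        (av fun ζ : Fin M → Fin M → ZMod (2 * q) => lam (HH (Function.update o i ζ)) 0) - lam (HH o) 0 := by
      intro o
      rw [av_sub, av_const]
    rw [av_congr h1, av_sub, av_update i fun o : Om b M q => lam (HH o) 0, sub_self]
  have hkey : ∀ o : Om b M q, - lam (HH o) 0 + c o * XM b (HH o) ≤
      ∑ i, av fun ζ : Fin M → Fin M → ZMod (2 * q) => lam (HH (Function.update o i ζ)) 0 - lam (HH o) 0 := by
    intro o
    calc - lam (HH o) 0 + c o * XM b (HH o)
        ≤ - lam (HH o) 0 + ∑ j ∈ Finset.Ico 1 M, (∑ i, av (fun ζ : Fin M → Fin M → ZMod (2 * q) =>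
            ‖ip (xi (HH o) j) ((PL o i ζ).mulVec (xi (HH o) 0))‖ ^ 2)) * (1 / (lam (HH o) 0 - lam (HH o) j + 3 * p0)) := by
          unfold XM
          rw [Finset.mul_sum]
          gcongr with j hj
          · have := hD o j hj
            exact one_div_nonneg.2 (by linarith)
          · exact hcoef o _ _ (hxj o j hj) (hx1 o)
      _ = ∑ i, av (fun ζ : Fin M → Fin M → ZMod (2 * q) => (ip (xi (HH o) 0) ((PL o i ζ).mulVec (xi (HH o) 0))).re +
            ∑ j ∈ Finset.Ico 1 M, ‖ip (xi (HH o) j) ((PL o i ζ).mulVec (xi (HH o) 0))‖ ^ 2 *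
              (1 / (lam (HH o) 0 - lam (HH o) j + 3 * p0))) := by
          rw [← hmean o, Finset.sum_congr rfl fun i _ => av_add _ _, Finset.sum_add_distrib]
          congr 1
          simp only [av_sum]
          rw [Finset.sum_comm]
          refine Finset.sum_congr rfl fun j _ => ?_
          rw [Finset.sum_mul]
          refine Finset.sum_congr rfl fun i _ => ?_
          rw [mul_comm, ← av_mul]
          refine av_congr fun ζ => ?_
          ring
      _ ≤ _ := Finset.sum_le_sum fun i _ => av_mono fun ζ => hpt o i ζ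
  have hmain : av (fun o : Om b M q => - lam (HH o) 0 + c o * XM b (HH o)) ≤ 0 := by
    refine (av_mono hkey).trans ?_
    rw [av_sum, hzero]
  -- bounds for `XM`
  have hX0 : ∀ o : Om b M q, 0 ≤ XM b (HH o) := by
    intro o
    refine Finset.sum_nonneg fun j hj => ?_
    have := hD o j hj
    exact one_div_nonneg.2 (by linarith)
  have hX1 : ∀ o : Om b M q, XM b (HH o) ≤ Real.sqrt b / 6 := by
    intro o
    calc XM b (HH o) ≤ ∑ j ∈ Finset.Ico 1 M, 1 / (3 * p0) := by
          refine Finset.sum_le_sum fun j hj => ?_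
          exact one_div_le_one_div_of_le (by positivity) (hD o j hj)
      _ = (M - 1 : ℕ) * (1 / (3 * p0)) := by rw [Finset.sum_const, Nat.card_Ico, nsmul_eq_mul]
      _ ≤ M * (1 / (3 * p0)) := by
          gcongr
          omega
      _ = Real.sqrt b / 6 := by
          rw [hp0]
          field_simp
          norm_num
  have hcX : ∀ o : Om b M q, (2 - σ) * XM b (HH o) - Real.sqrt b / 6 * (if ¬ Emp s o then 1 else 0) ≤
      c o * XM b (HH o) := by
    intro o
    simp only [hc]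
    by_cases h : Emp s o
    · rw [if_pos h, if_neg (not_not.2 h), mul_zero, sub_zero]
    · rw [if_neg h, if_pos h]
      nlinarith [hX0 o, hX1 o]
  have h1 : av (fun o : Om b M q => (2 - σ) * XM b (HH o) - Real.sqrt b / 6 * (if ¬ Emp s o then 1 else 0)) ≤
      av (fun o : Om b M q => lam (HH o) 0) := by
    have h2 := av_mono hcX
    rw [av_add, av_neg] at hmain
    linarith
  rw [av_sub, av_mul, av_mul] at h1
  have h3 : av (fun o : Om b M q => if ¬ Emp s o then (1 : ℝ) else 0) ≤ M ^ 4 / (b * s ^ 2) := by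
    have h30 := pr_not_emp (M := M) hq hb hspos
    unfold pr at h30
    convert h30 using 2
    funext x
    by_cases h : Emp s x <;> simp [h]
  have h4 : Real.sqrt b / 6 * av (fun o : Om b M q => if ¬ Emp s o then (1 : ℝ) else 0) ≤ M ^ 8 / (6 * Real.sqrt b * σ ^ 2) := by
    calc Real.sqrt b / 6 * av (fun o : Om b M q => if ¬ Emp s o then (1 : ℝ) else 0)
        ≤ Real.sqrt b / 6 * (M ^ 4 / (b * s ^ 2)) := mul_le_mul_of_nonneg_left h3 (by positivity)
      _ = M ^ 8 / (6 * Real.sqrt b * σ ^ 2) := by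
          rw [hs]
          have hbb : (b : ℝ) = Real.sqrt b * Real.sqrt b := (Real.mul_self_sqrt hb'.le).symm
          rw [hbb]
          rw [Real.sqrt_mul_self hsb.le]
          field_simp
  linarith

end ACpFrege
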